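import Pool.Agent.H11.GS.Df

/-!
MP_8923e7_nt, project GS.  The quadruples contradict the quadruple theorem.

`adm4`: for `p = 2` take `b = 1`; for `p = 3` the entries are `0` or `c` modulo `3`: take `b` with `b ≢ 0`,
`b ≢ -c` modulo 3; for `p ≥ 5` the four classes of the `-a j` are not all the classes modulo `p`.

`con_T`: `q > 0`, `6 ∣ q`.  Let `ρ` be as in the hypothesis and `(δ, C)` from `P4 G`.  Let `l ≥ 1` be so large that
`C l^(4-δ) < ρ l^4`.  With `u` from the hypothesis let `A j` be the image of `(u j, u j + l]` under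
`y ↦ q y` (integers); `#(A j) ≤ l`.  The map `x ↦ (q x_j)_j` is injective and sends the quadruples with `QT` to
admissible quadruples (`adm4` with `c = 0`) without `i, j` such that `a i < a j` and `G (a j - a i)`: `a i < a j`
implies `x i < x j`, hence `i < j` by `QT` (otherwise `i = j` or `x j < x i`), and
`(a j - a i).toNat = q (x j - x i)`.

`con_S`: `Q > 0` even, `e ∈ {1, 2}`; the same with `a = (3Q x 0, 3Q x 1, 3Q x 2 + eQ, 3Q x 3 + eQ)` and
boxes of length `4 l`; `c = e Q`.  The differences are `3Q (x 1 - x 0)`, `3Q (x 3 - x 2)` and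
`3Q (x j - x i) + e Q` for `i ∈ {0,1}`, `j ∈ {2,3}`.
-/

namespace Pool.Agent.H11.GS

open Finset

theorem adm4 (a : Fin 4 → ℤ) (h2 : ∀ j, (2 : ℤ) ∣ a j) (c : ℤ)
    (h3 : ∀ j, (3 : ℤ) ∣ a j ∨ (3 : ℤ) ∣ a j - c) : AdT a := by
  intro p hp
  rcases Nat.lt_or_ge p 5 with h5 | h5
  · have hp23 : p = 2 ∨ p = 3 := by
      have := hp.two_le
      have h4 : p ≠ 4 := by
        rintro rfl
        revert hp
        norm_num
      omega
    rcases hp23 with rfl | rfl
    · refine ⟨1, fun j => ?_⟩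
      have := h2 j
      push_cast
      omega
    · have hc : c % 3 = 0 ∨ c % 3 = 1 ∨ c % 3 = 2 := by omega
      rcases hc with hc | hc | hc
      · refine ⟨1, fun j => ?_⟩
        have := h3 j
        push_cast
        omega
      · refine ⟨1, fun j => ?_⟩
        have := h3 j
        push_cast
        omega
      · refine ⟨2, fun j => ?_⟩
        have := h3 j
        push_cast
        omega
  · have : Fact p.Prime := ⟨hp⟩
    have hcard : ((univ : Finset (Fin 4)).image (fun j => (-(a j : ZMod p)))).card <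
        (univ : Finset (ZMod p)).card := by
      refine lt_of_le_of_lt card_image_le ?_
      rw [card_univ, card_univ, Fintype.card_fin, ZMod.card]
      omega
    obtain ⟨b, -, hb⟩ := exists_mem_notMem_of_card_lt_card hcard
    refine ⟨(b.val : ℤ), fun j hj => hb ?_⟩
    rw [mem_image]
    refine ⟨j, mem_univ _, ?_⟩
    have h1 := (ZMod.intCast_zmod_eq_zero_iff_dvd ((b.val : ℤ) + a j) p).2 hj
    push_cast at h1
    rw [ZMod.natCast_zmod_val] at h1
    linear_combination -h1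

open Classical in
theorem p4_small (G : ℕ → Prop) (hG : P4 G) (m : ℕ) (hm : 1 ≤ m) (ρ : ℝ) (hρ : 0 < ρ) :
    ∃ l : ℕ, 1 ≤ l ∧ ∀ A : Fin 4 → Finset ℤ, (∀ j, (A j).card ≤ m * l) →
      (((Fintype.piFinset A).filter
      (fun a => AdT a ∧ ∀ i j, ¬ (a i < a j ∧ G (a j - a i).toNat))).card : ℝ) < ρ * (l : ℝ) ^ 4 := by
  obtain ⟨δ, C, hδ, hδ1, hC, H⟩ := hG
  have hm0 : (0 : ℝ) < m := by exact_mod_cast hm
  have hlim : Filter.Tendsto (fun l : ℕ => C * (m : ℝ) ^ ((4 : ℝ) - δ) * ((l : ℝ) ^ (-δ)))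
      Filter.atTop (nhds (C * (m : ℝ) ^ ((4 : ℝ) - δ) * 0)) := by
    apply Filter.Tendsto.const_mul
    exact (tendsto_rpow_neg_atTop hδ).comp tendsto_natCast_atTop_atTop
  rw [mul_zero] at hlim
  obtain ⟨l, hl1, hl⟩ := ((Filter.eventually_ge_atTop 1).and
    (hlim.eventually (gt_mem_nhds hρ))).exists
  refine ⟨l, hl1, fun A hA => ?_⟩
  have hl0 : (0 : ℝ) < l := by exact_mod_cast hl1
  refine lt_of_le_of_lt (H (m * l) A (Nat.mul_pos hm hl1) hA) ?_
  push_cast
  rw [Real.mul_rpow hm0.le hl0.le]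
  have e : (l : ℝ) ^ ((4 : ℝ) - δ) = (l : ℝ) ^ (-δ) * (l : ℝ) ^ 4 := by
    rw [← Real.rpow_natCast (l : ℝ) 4, ← Real.rpow_add hl0]
    congr 1
    push_cast
    ring
  rw [e]
  calc C * ((m : ℝ) ^ ((4 : ℝ) - δ) * ((l : ℝ) ^ (-δ) * (l : ℝ) ^ 4))
      = (C * (m : ℝ) ^ ((4 : ℝ) - δ) * ((l : ℝ) ^ (-δ))) * (l : ℝ) ^ 4 := by ring
    _ < ρ * (l : ℝ) ^ 4 := mul_lt_mul_of_pos_right hl (by positivity)

open Classical in
/-- general form: the quadruples `a j = q x_j + d j` -/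
theorem con_gen (G : ℕ → Prop) (hG : P4 G) (q : ℕ) (hq : 0 < q) (d : Fin 4 → ℤ) (m : ℕ)
    (hm : 1 ≤ m) (P : (Fin 4 → ℕ) → Prop)
    (hP : ∀ x : Fin 4 → ℕ, P x → AdT (fun j => (q : ℤ) * x j + d j) ∧ ∀ i j,
      ¬ ((q : ℤ) * x i + d i < (q : ℤ) * x j + d j ∧
        G (((q : ℤ) * x j + d j) - ((q : ℤ) * x i + d i)).toNat)) (ρ : ℝ) (hρ : 0 < ρ)
    (h : ∀ l : ℕ, 1 ≤ l → ∃ u : Fin 4 → ℕ,
      ρ * (l : ℝ) ^ 4 ≤ (((Fintype.piFinset (fun j : Fin 4 => Ioc (u j) (u j + m * l))).filter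
        (fun x => P x)).card : ℝ)) : False := by
  obtain ⟨l, hl1, hl⟩ := p4_small G hG m hm ρ hρ
  obtain ⟨u, hu⟩ := h l hl1
  have h1 := hl (fun j => (Ioc (u j) (u j + m * l)).image (fun y : ℕ => (q : ℤ) * y + d j))
    (fun j => card_image_le.trans (by simp))
  refine absurd (lt_of_le_of_lt hu (lt_of_le_of_lt ?_ h1)) (lt_irrefl _)
  have : ((Fintype.piFinset (fun j : Fin 4 => Ioc (u j) (u j + m * l))).filter
        (fun x => P x)).card ≤ ((Fintype.piFinset (fun j => (Ioc (u j) (u j + m * l)).image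
          (fun y : ℕ => (q : ℤ) * y + d j))).filter
      (fun a => AdT a ∧ ∀ i j, ¬ (a i < a j ∧ G (a j - a i).toNat))).card := by
    apply card_le_card_of_injOn (fun x j => (q : ℤ) * x j + d j)
    · intro x hx
      rw [mem_coe, mem_filter] at hx
      obtain ⟨hx1, hx2⟩ := hx
      rw [mem_coe, mem_filter]
      refine ⟨Fintype.mem_piFinset.2 fun j => mem_image.2 ⟨x j, Fintype.mem_piFinset.1 hx1 j, rfl⟩, ?_⟩
      exact hP x hx2
    · intro x _ y _ hxy
      funext j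
      have h2 := congrFun hxy j
      simp only at h2
      have h3 : (q : ℤ) * x j = (q : ℤ) * y j := by linarith
      have h4 : (q : ℤ) ≠ 0 := by exact_mod_cast hq.ne'
      exact_mod_cast mul_left_cancel₀ h4 h3
  exact_mod_cast this

open Classical in
theorem con_T (G : ℕ → Prop) (hG : P4 G) (q : ℕ) (hq : 0 < q) (h6 : 6 ∣ q) (ρ : ℝ) (hρ : 0 < ρ)
    (h : ∀ l : ℕ, 1 ≤ l → ∃ u : Fin 4 → ℕ,
      ρ * (l : ℝ) ^ 4 ≤ (((Fintype.piFinset (fun j : Fin 4 => Ioc (u j) (u j + l))).filter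
        (fun x => QT (fun m => ¬ G (q * m)) x)).card : ℝ)) : False := by
  refine con_gen G hG q hq (fun _ => 0) 1 le_rfl (QT (fun m => ¬ G (q * m))) ?_ ρ hρ ?_
  · intro x hx
    have hq2 : (2 : ℤ) ∣ (q : ℤ) := by
      have : 2 ∣ q := (show 2 ∣ 6 by norm_num).trans h6
      exact_mod_cast this
    have hq3 : (3 : ℤ) ∣ (q : ℤ) := by
      have : 3 ∣ q := (show 3 ∣ 6 by norm_num).trans h6
      exact_mod_cast this
    refine ⟨adm4 _ (fun j => ?_) 0 (fun j => Or.inl ?_), ?_⟩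
    · simpa using hq2.mul_right (x j : ℤ)
    · simpa using hq3.mul_right (x j : ℤ)
    · rintro i j ⟨h1, h2⟩
      simp only [add_zero] at h1 h2
      have hq0 : (0 : ℤ) < q := by exact_mod_cast hq
      have h3 : (x i : ℤ) < x j := lt_of_mul_lt_mul_left h1 hq0.le
      have h3' : x i < x j := by exact_mod_cast h3
      have h4 : i < j := by
        by_contra hij
        rcases lt_or_eq_of_le (not_lt.1 hij) with h5 | h5
        · have := (hx j i h5).1
          omega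
        · rw [h5] at h3'
          exact lt_irrefl _ h3'
      have h5 := (hx i j h4).2
      have e : ((q : ℤ) * x j - (q : ℤ) * x i).toNat = q * (x j - x i) := by
        have : (q : ℤ) * x j - (q : ℤ) * x i = ((q * (x j - x i) : ℕ) : ℤ) := by
          push_cast [Nat.cast_sub h3'.le]
          ring
        rw [this, Int.toNat_natCast]
      rw [e] at h2
      exact h5 h2
  · intro l hl
    obtain ⟨u, hu⟩ := h l hl
    refine ⟨u, ?_⟩
    simp only [one_mul]
    exact hu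

open Classical in
theorem con_S (G : ℕ → Prop) (hG : P4 G) (Q : ℕ) (hQ : 0 < Q) (h2 : 2 ∣ Q) (e : ℕ) (ρ : ℝ)
    (hρ : 0 < ρ) (h : ∀ l : ℕ, 1 ≤ l → ∃ u : Fin 4 → ℕ,
      ρ * (l : ℝ) ^ 4 ≤ (((Fintype.piFinset (fun j : Fin 4 => Ioc (u j) (u j + 4 * l))).filter
        (fun x => QS (fun m => ¬ G (3 * Q * m)) (fun m => ¬ G (3 * Q * m + e * Q)) x)).card : ℝ)) :
    False := by
  refine con_gen G hG (3 * Q) (by omega) (fun j => if j.val < 2 then 0 else (e : ℤ) * Q) 4
    (by norm_num) _ ?_ ρ hρ h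
  intro x hx
  obtain ⟨⟨h01, h12, h23⟩, ⟨hs1, hs2⟩, hs3, hs4, hs5, hs6⟩ := hx
  have hQ2 : (2 : ℤ) ∣ (Q : ℤ) := by exact_mod_cast h2
  have hQ0 : (0 : ℤ) < Q := by exact_mod_cast hQ
  refine ⟨adm4 _ (fun j => ?_) ((e : ℤ) * Q) (fun j => ?_), ?_⟩
  · apply dvd_add
    · push_cast
      exact (hQ2.mul_left 3).mul_right _
    · split_ifs
      · exact dvd_zero _
      · exact hQ2.mul_left _
  · split_ifs with hj
    · left
      rw [add_zero]
      push_cast
      exact ⟨(Q : ℤ) * x j, by ring⟩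
    · right
      push_cast
      exact ⟨(Q : ℤ) * x j, by ring⟩
  · -- differences
    have key1 : ∀ a b : ℕ, a < b → (((3 * Q : ℕ) : ℤ) * b - ((3 * Q : ℕ) : ℤ) * a).toNat =
        3 * Q * (b - a) := by
      intro a b hab
      have : ((3 * Q : ℕ) : ℤ) * b - ((3 * Q : ℕ) : ℤ) * a = ((3 * Q * (b - a) : ℕ) : ℤ) := by
        push_cast [Nat.cast_sub hab.le]
        ring
      rw [this, Int.toNat_natCast]
    have key2 : ∀ a b : ℕ, a < b →
        (((3 * Q : ℕ) : ℤ) * b + (e : ℤ) * Q - ((3 * Q : ℕ) : ℤ) * a).toNat =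
        3 * Q * (b - a) + e * Q := by
      intro a b hab
      have : ((3 * Q : ℕ) : ℤ) * b + (e : ℤ) * Q - ((3 * Q : ℕ) : ℤ) * a =
          ((3 * Q * (b - a) + e * Q : ℕ) : ℤ) := by
        push_cast [Nat.cast_sub hab.le]
        ring
      rw [this, Int.toNat_natCast]
    have hc0 : (0 : ℤ) ≤ (e : ℤ) * Q := by positivity
    have hmono : ∀ a b : ℕ, a < b → ((3 * Q : ℕ) : ℤ) * a < ((3 * Q : ℕ) : ℤ) * b := by
      intro a b hab
      have h1 : (0 : ℤ) < ((3 * Q : ℕ) : ℤ) := by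
        have : 0 < 3 * Q := by omega
        exact_mod_cast this
      have h2 : (a : ℤ) < b := by exact_mod_cast hab
      exact mul_lt_mul_of_pos_left h2 h1
    have m01 := hmono _ _ h01
    have m12 := hmono _ _ h12
    have m23 := hmono _ _ h23
    rintro i j ⟨g1, g2⟩
    fin_cases i <;> fin_cases j <;>
      simp only [Fin.zero_eta, Fin.mk_one, Fin.reduceFinMk, Fin.isValue, Nat.reduceLT,
        Nat.ofNat_pos, if_true, if_false, Nat.one_lt_ofNat, add_zero, lt_self_iff_false] at g1 g2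
    all_goals first
      | exact g1
      | (exfalso; linarith)
      | skip
    · rw [key1 _ _ h01] at g2
      exact hs1 g2
    · rw [key2 _ _ (h01.trans h12)] at g2
      exact hs3 g2
    · rw [key2 _ _ ((h01.trans h12).trans h23)] at g2
      exact hs5 g2
    · rw [key2 _ _ h12] at g2
      exact hs4 g2
    · rw [key2 _ _ (h12.trans h23)] at g2
      exact hs6 g2
    · rw [show ((3 * Q : ℕ) : ℤ) * x 3 + (e : ℤ) * Q - (((3 * Q : ℕ) : ℤ) * x 2 + (e : ℤ) * Q) =
        ((3 * Q : ℕ) : ℤ) * x 3 - ((3 * Q : ℕ) : ℤ) * x 2 by ring, key1 _ _ h23] at g2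
      exact hs2 g2

end Pool.Agent.H11.GS
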