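import Mathlib

/-!
MP_8923e7_nt, project GS (a third of the multiples of every even number are gaps between consecutive primes).
Definitions.
-/

namespace Pool.Agent.H11.GS

open Finset

open Classical in
/-- the number of elements of `S` in `(M, M + X]` -/
noncomputable def cnt (S : ℕ → Prop) (M X : ℕ) : ℕ := ((Ioc M (M + X)).filter (fun n => S n)).card

/-- windows of every length in which `S` has density at least `c` -/
def Rich (S : ℕ → Prop) (c : ℝ) : Prop := ∀ l : ℕ, 1 ≤ l → ∃ M : ℕ, c * (l : ℝ) ≤ (cnt S M l : ℝ)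

/-- the upper Banach density of `S` is at most `c` -/
def Ubd (S : ℕ → Prop) (c : ℝ) : Prop :=
  ∀ ε : ℝ, 0 < ε → ∃ X0 : ℕ, ∀ X M : ℕ, X0 ≤ X → (cnt S M X : ℝ) ≤ (c + ε) * (X : ℝ)

/-- admissible tuple -/
def AdT {k : ℕ} (a : Fin k → ℤ) : Prop := ∀ p : ℕ, p.Prime → ∃ b : ℤ, ∀ j, ¬ (p : ℤ) ∣ b + a j

open Classical in
/-- For almost all admissible quadruples some difference is in `G`. -/
def P4 (G : ℕ → Prop) : Prop := ∃ δ C : ℝ, 0 < δ ∧ δ ≤ 1 ∧ 0 ≤ C ∧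
  ∀ (n : ℕ) (A : Fin 4 → Finset ℤ), 1 ≤ n → (∀ j, (A j).card ≤ n) →
    (((Fintype.piFinset A).filter
      (fun a => AdT a ∧ ∀ i j, ¬ (a i < a j ∧ G (a j - a i).toNat))).card : ℝ) ≤
        C * (n : ℝ) ^ ((4 : ℝ) - δ)

/-- the six differences of `x` are in `S` -/
def QT (S : ℕ → Prop) (x : Fin 4 → ℕ) : Prop := ∀ i j : Fin 4, i < j → x i < x j ∧ S (x j - x i)

/-- `x 0 < x 1 < x 2 < x 3`, the differences of the first two and of the last two are in `S₀`, the other four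
differences are in `S₁` -/
def QS (S₀ S₁ : ℕ → Prop) (x : Fin 4 → ℕ) : Prop :=
  (x 0 < x 1 ∧ x 1 < x 2 ∧ x 2 < x 3) ∧ (S₀ (x 1 - x 0) ∧ S₀ (x 3 - x 2)) ∧
    S₁ (x 2 - x 0) ∧ S₁ (x 2 - x 1) ∧ S₁ (x 3 - x 0) ∧ S₁ (x 3 - x 1)

end Pool.Agent.H11.GS
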