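import Mathlib

/-!
MP_8923e7_nt, project GS.  A set of vertices of the `n`-dimensional cube which meets every square has at least
`(2^n - 2)/3` elements (Kostochka; Johnson and Entringer).  Mathlib only.

Proof.  Let `τ 0 = τ 1 = 0`, `τ (n+1) = 2 τ n + (1 if n is odd, else 0)`; by induction `3 τ n + 2 ≥ 2^n`
(precisely: `3 τ n + 1 = 2^n` for even `n` and `3 τ n + 2 = 2^n` for odd `n`).  For a set `F` of free coordinates
and a vertex `v` let `N(F, v) = #{y ∈ T : ∀ l ∉ F, y l = v l}`.  For `i ∈ F`:
`N(F, v) = N(F \ i, v[i := false]) + N(F \ i, v[i := true])`  (1).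
Claim: `N(F, v) ≥ τ |F|` for all `F`, `v`; induction on `m + 1 = |F|` (`|F| = 0` trivial).
* `m` even: (1) for some `i ∈ F` and the induction hypothesis.
* `m = 1`: `F = {i, j}` with `i ≠ j`: `hT` gives `N(F, v) ≥ 1 = τ 2`.
* `m ≥ 3` odd: suppose `N(F, v) ≤ 2 τ m`.  By (1) and the induction hypothesis `N(F \ i, v') = τ m` for all
`i ∈ F` and all `v'` which agree with `v` outside `F`.  `m - 1` is even, so `τ m = 2 τ (m-1)`; by (1) for `F \ i`
and the induction hypothesis `N(F \ {i, j}, v') = τ (m-1)` for all `i ≠ j` in `F` and all `v'` which agree with
`v` outside `F`.  `m - 2` is odd, so `τ (m-1) = 2 τ (m-2) + 1`, and `m - 3` is even, so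
`τ (m-2) = 2 τ (m-3)`.  Take four distinct elements `i, j, k, l` of `F` (`|F| = m + 1 ≥ 4`) and
put, for `x : Bool⁴`, `N(F \ {i,j,k,l}, v[i,j,k,l := x]) = τ (m-3) + δ(x)`, `δ(x) ≥ 0` by induction.  By (1)
twice the sum of `δ` over each 2-dimensional face of `Bool⁴` (two coordinates fixed, 24 faces) is
`τ (m-1) - 4 τ (m-3) = 1`.
  This is impossible: some `δ(x) = 1`; by symmetry (flip coordinates; or treat the 16 cases) `x = 0`.
A face through `x` has sum `1`, so `δ = 0` at all vertices of distance `1` or `2` from `x`.  Let `e_j` be the value
of `δ` at the vertex of distance 3 from `x` which agrees with `x` in `j`, `e` the value at distance 4.  The face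
with two coordinates flipped and `k, l` free gives `e_k + e_l + e = 1`; so all the `e_j` are equal, `2 e_1 + e = 1`,
`e_1 = 0`.  The face with coordinate `i` flipped, `j` not flipped, the other two free has the sum
`0 + 0 + 0 + e_j = 0`, a contradiction.  (Given `δ(x) = 1`, this is linear: `omega` does it from the 24
equations.)
-/

namespace Pool.Agent.H11.GS

open Finset

private def tau : ℕ → ℕ
  | 0 => 0
  | 1 => 0
  | (n + 2) => 2 * tau (n + 1) + (if n % 2 = 0 then 1 else 0)

private theorem tau_two (n : ℕ) :
    (n % 2 = 0 → 3 * tau n + 1 = 2 ^ n) ∧ (n % 2 = 1 → 3 * tau n + 2 = 2 ^ n) := by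
  induction n using Nat.twoStepInduction with
  | zero => simp [tau]
  | one => simp [tau]
  | more n ih1 ih2 =>
    constructor
    · intro h
      have h1 : (n + 1) % 2 = 1 := by omega
      have h2 := ih2.2 h1
      have h3 : n % 2 = 0 := by omega
      rw [tau, if_pos h3, pow_succ]
      omega
    · intro h
      have h1 : (n + 1) % 2 = 0 := by omega
      have h2 := ih2.1 h1
      have h3 : ¬ n % 2 = 0 := by omega
      rw [tau, if_neg h3, pow_succ]
      omega

private def NN {n : ℕ} (T : Finset (Fin n → Bool)) (F : Finset (Fin n)) (v : Fin n → Bool) : ℕ :=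
  (T.filter (fun y => ∀ l, l ∉ F → y l = v l)).card

private theorem split1 {n : ℕ} (S : Finset (Fin n → Bool)) (i : Fin n) :
    S.card = (S.filter (fun y => y i = false)).card + (S.filter (fun y => y i = true)).card := by
  rw [← Finset.card_union_of_disjoint]
  · congr 1
    ext y
    simp only [mem_union, mem_filter]
    cases y i <;> tauto
  · rw [Finset.disjoint_filter]
    intro y _ h1 h2
    rw [h1] at h2
    exact Bool.noConfusion h2

private theorem NN_split {n : ℕ} (T : Finset (Fin n → Bool)) (F : Finset (Fin n))
    (v : Fin n → Bool) (i : Fin n) (hi : i ∈ F) :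
    NN T F v = NN T (F.erase i) (Function.update v i false)
      + NN T (F.erase i) (Function.update v i true) := by
  have h : ∀ b : Bool, NN T (F.erase i) (Function.update v i b)
      = ((T.filter (fun y => ∀ l, l ∉ F → y l = v l)).filter (fun y => y i = b)).card := by
    intro b
    unfold NN
    rw [Finset.filter_filter]
    congr 1
    apply Finset.filter_congr
    intro y _
    constructor
    · intro h
      constructor
      · intro l hl
        have hli : l ≠ i := fun h => hl (h ▸ hi)
        have := h l (fun h2 => hl (Finset.mem_of_mem_erase h2))
        rwa [Function.update_of_ne hli] at this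
      · have := h i (Finset.notMem_erase i F)
        rwa [Function.update_self] at this
    · rintro ⟨h1, h2⟩ l hl
      by_cases hli : l = i
      · subst hli
        rw [Function.update_self]
        exact h2
      · rw [Function.update_of_ne hli]
        exact h1 l (fun h => hl (Finset.mem_erase.2 ⟨hli, h⟩))
  rw [h false, h true]
  exact split1 _ i

private theorem core16 (D : Bool → Bool → Bool → Bool → ℕ) (t : ℕ)
    (h0 : ∀ a b c d, t ≤ D a b c d)
    (h12 : ∀ a b, D a b false false + D a b false true + D a b true false + D a b true true
      = 4 * t + 1)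
    (h13 : ∀ a c, D a false c false + D a false c true + D a true c false + D a true c true
      = 4 * t + 1)
    (h14 : ∀ a d, D a false false d + D a false true d + D a true false d + D a true true d
      = 4 * t + 1)
    (h23 : ∀ b c, D false b c false + D false b c true + D true b c false + D true b c true
      = 4 * t + 1)
    (h24 : ∀ b d, D false b false d + D false b true d + D true b false d + D true b true d
      = 4 * t + 1)
    (h34 : ∀ c d, D false false c d + D false true c d + D true false c d + D true true c d
      = 4 * t + 1) : False := by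
  simp only [Bool.forall_bool] at h0 h12 h13 h14 h23 h24 h34
  have h : D false false false false = t + 1 ∨ D false false false true = t + 1
    ∨ D false false true false = t + 1 ∨ D false false true true = t + 1 := by omega
  rcases h with h | h | h | h <;> omega

private theorem NN_congr {n : ℕ} (T : Finset (Fin n → Bool)) (F : Finset (Fin n))
    (v w : Fin n → Bool) (h : ∀ l, l ∉ F → v l = w l) : NN T F v = NN T F w := by
  unfold NN
  congr 1
  apply Finset.filter_congr
  intro y _
  constructor
  · intro h1 l hl
    rw [h1 l hl, h l hl]
  · intro h1 l hl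
    rw [h1 l hl, h l hl]

private theorem NN_two {n : ℕ} (T : Finset (Fin n → Bool)) (F : Finset (Fin n))
    (v : Fin n → Bool) (p q : Fin n) (hp : p ∈ F) (hq : q ∈ F) (hpq : p ≠ q) (a b : Bool) :
    ((T.filter (fun y => ∀ l, l ∉ F → y l = v l)).filter (fun y => y p = a ∧ y q = b)).card
      = NN T ((F.erase p).erase q) (Function.update (Function.update v p a) q b) := by
  unfold NN
  rw [Finset.filter_filter]
  congr 1
  apply Finset.filter_congr
  intro y _
  constructor
  · rintro ⟨h1, h2, h3⟩ l hl
    by_cases hlq : l = q
    · subst hlq
      rw [Function.update_self, h3]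
    · rw [Function.update_of_ne hlq]
      by_cases hlp : l = p
      · subst hlp
        rw [Function.update_self, h2]
      · rw [Function.update_of_ne hlp]
        exact h1 l (fun h => hl (Finset.mem_erase.2 ⟨hlq, Finset.mem_erase.2 ⟨hlp, h⟩⟩))
  · intro h
    refine ⟨fun l hl => ?_, ?_, ?_⟩
    · have hlp : l ≠ p := fun h => hl (h ▸ hp)
      have hlq : l ≠ q := fun h => hl (h ▸ hq)
      have := h l (fun h2 => hl (Finset.mem_of_mem_erase (Finset.mem_of_mem_erase h2)))
      rwa [Function.update_of_ne hlq, Function.update_of_ne hlp] at this
    · have := h p (fun h2 => Finset.notMem_erase p F (Finset.mem_of_mem_erase h2))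
      rwa [Function.update_of_ne hpq, Function.update_self] at this
    · have := h q (Finset.notMem_erase q _)
      rwa [Function.update_self] at this

private theorem face_sum {n : ℕ} (S : Finset (Fin n → Bool)) (p q r s : Fin n) (a b : Bool) :
    (S.filter (fun y => y p = a ∧ y q = b)).card
      = (S.filter (fun y => y p = a ∧ y q = b ∧ y r = false ∧ y s = false)).card
      + (S.filter (fun y => y p = a ∧ y q = b ∧ y r = false ∧ y s = true)).card
      + (S.filter (fun y => y p = a ∧ y q = b ∧ y r = true ∧ y s = false)).card
      + (S.filter (fun y => y p = a ∧ y q = b ∧ y r = true ∧ y s = true)).card := by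
  rw [split1 _ r, split1 (filter (fun y => y r = false) _) s,
    split1 (filter (fun y => y r = true) _) s]
  simp only [Finset.filter_filter, and_assoc]
  ring

private theorem claim {n : ℕ} (T : Finset (Fin n → Bool))
    (hT : ∀ x : Fin n → Bool, ∀ i j : Fin n, i ≠ j → ∃ y ∈ T, ∀ l, l ≠ i → l ≠ j → y l = x l)
    (m : ℕ) : ∀ (F : Finset (Fin n)), F.card = m → ∀ v : Fin n → Bool, tau m ≤ NN T F v := by
  induction m using Nat.strong_induction_on with
  | _ m ih =>
    intro F hF v
    obtain _ | _ | m := m
    · simp [tau]
    · simp [tau]
    have hne : F.Nonempty := by rw [← Finset.card_pos]; omega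
    obtain ⟨i, hi⟩ := hne
    have hci : (F.erase i).card = m + 1 := by rw [Finset.card_erase_of_mem hi]; omega
    by_cases hm : m % 2 = 0
    · rw [tau, if_pos hm]
      by_contra hlt
      push Not at hlt
      have hne2 : (F.erase i).Nonempty := by rw [← Finset.card_pos]; omega
      obtain ⟨j, hj⟩ := hne2
      have hjF := Finset.mem_of_mem_erase hj
      have hji : j ≠ i := Finset.ne_of_mem_erase hj
      have hcj : ((F.erase i).erase j).card = m := by rw [Finset.card_erase_of_mem hj]; omega
      obtain rfl | hm2 : m = 0 ∨ 2 ≤ m := by omega
      · have h1 : tau 1 = 0 := rfl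
        rw [h1] at hlt
        obtain ⟨y, hy, hyl⟩ := hT v i j (Ne.symm hji)
        have h2 : y ∈ T.filter (fun y => ∀ l, l ∉ F → y l = v l) := by
          rw [Finset.mem_filter]
          refine ⟨hy, fun l hl => hyl l ?_ ?_⟩
          · exact fun h => hl (h ▸ hi)
          · exact fun h => hl (h ▸ hjF)
        have h3 : 0 < NN T F v := Finset.card_pos.2 ⟨y, h2⟩
        omega
      · have H1 : ∀ p ∈ F, ∀ v' : Fin n → Bool, (∀ l, l ∉ F → v' l = v l) →
            NN T (F.erase p) v' = tau (m + 1) := by
          intro p hp v' hv'
          have hc : (F.erase p).card = m + 1 := by rw [Finset.card_erase_of_mem hp]; omega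
          have h1 := NN_split T F v' p hp
          rw [NN_congr T F v' v hv'] at h1
          have h2 := ih (m + 1) (by omega) (F.erase p) hc (Function.update v' p false)
          have h3 := ih (m + 1) (by omega) (F.erase p) hc (Function.update v' p true)
          have h4 : NN T (F.erase p) (Function.update v' p false) = tau (m + 1) := by omega
          have h5 : NN T (F.erase p) (Function.update v' p true) = tau (m + 1) := by omega
          have h6 : v' = Function.update v' p (v' p) := by simp
          cases hb : v' p
          · rw [h6, hb]; exact h4
          · rw [h6, hb]; exact h5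
        have ht1 : tau (m + 1) = 2 * tau m := by
          obtain ⟨k, rfl⟩ : ∃ k, m = k + 1 := ⟨m - 1, by omega⟩
          rw [tau, if_neg (by omega)]
          ring
        have H2 : ∀ p ∈ F, ∀ q ∈ F, p ≠ q → ∀ v' : Fin n → Bool, (∀ l, l ∉ F → v' l = v l) →
            NN T ((F.erase p).erase q) v' = tau m := by
          intro p hp q hq hpq v' hv'
          have hq' : q ∈ F.erase p := Finset.mem_erase.2 ⟨Ne.symm hpq, hq⟩
          have hc : ((F.erase p).erase q).card = m := by
            rw [Finset.card_erase_of_mem hq', Finset.card_erase_of_mem hp]; omega
          have h1 := NN_split T (F.erase p) v' q hq'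
          rw [H1 p hp v' hv'] at h1
          have h2 := ih m (by omega) _ hc (Function.update v' q false)
          have h3 := ih m (by omega) _ hc (Function.update v' q true)
          have h4 : NN T ((F.erase p).erase q) (Function.update v' q false) = tau m := by omega
          have h5 : NN T ((F.erase p).erase q) (Function.update v' q true) = tau m := by omega
          have h6 : v' = Function.update v' q (v' q) := by simp
          cases hb : v' q
          · rw [h6, hb]; exact h4
          · rw [h6, hb]; exact h5
        have ht2 : tau m = 4 * tau (m - 2) + 1 := by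
          obtain ⟨k, rfl⟩ : ∃ k, m = k + 2 := ⟨m - 2, by omega⟩
          rw [tau, if_pos (by omega)]
          obtain _ | k := k
          · simp [tau]
          · have h1 : tau (k + 1 + 1) = 2 * tau (k + 1) := by
              rw [tau, if_neg (by omega)]
              ring
            rw [h1]
            have h2 : k + 1 + 2 - 2 = k + 1 := by omega
            rw [h2]
            ring
        -- four elements
        have hne3 : ((F.erase i).erase j).Nonempty := by rw [← Finset.card_pos]; omega
        obtain ⟨k, hk⟩ := hne3
        have hcj : (((F.erase i).erase j).erase k).card = m - 1 := by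
          rw [Finset.card_erase_of_mem hk]; omega
        have hne4 : (((F.erase i).erase j).erase k).Nonempty := by rw [← Finset.card_pos]; omega
        obtain ⟨l, hl⟩ := hne4
        have hcl : ((((F.erase i).erase j).erase k).erase l).card = m - 2 := by
          rw [Finset.card_erase_of_mem hl]; omega
        have hkF : k ∈ F := Finset.mem_of_mem_erase (Finset.mem_of_mem_erase hk)
        have hlF : l ∈ F := Finset.mem_of_mem_erase (Finset.mem_of_mem_erase
          (Finset.mem_of_mem_erase hl))
        have hkj : k ≠ j := Finset.ne_of_mem_erase hk
        have hki : k ≠ i := Finset.ne_of_mem_erase (Finset.mem_of_mem_erase hk)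
        have hlk : l ≠ k := Finset.ne_of_mem_erase hl
        have hlj : l ≠ j := Finset.ne_of_mem_erase (Finset.mem_of_mem_erase hl)
        have hli : l ≠ i := Finset.ne_of_mem_erase (Finset.mem_of_mem_erase
          (Finset.mem_of_mem_erase hl))
        set S := T.filter (fun y => ∀ l, l ∉ F → y l = v l) with hS
        have hface : ∀ p ∈ F, ∀ q ∈ F, p ≠ q → ∀ a b : Bool,
            (S.filter (fun y => y p = a ∧ y q = b)).card = 4 * tau (m - 2) + 1 := by
          intro p hp q hq hpq a b
          rw [hS, NN_two T F v p q hp hq hpq a b, ← ht2]
          apply H2 p hp q hq hpq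
          intro x hx
          have hxp : x ≠ p := fun h => hx (h ▸ hp)
          have hxq : x ≠ q := fun h => hx (h ▸ hq)
          rw [Function.update_of_ne hxq, Function.update_of_ne hxp]
        refine core16 (fun a b c d => (S.filter (fun y => y i = a ∧ y j = b ∧ y k = c
          ∧ y l = d)).card) (tau (m - 2)) ?_ ?_ ?_ ?_ ?_ ?_ ?_
        · intro a b c d
          have h1 := ih (m - 2) (by omega) ((((F.erase i).erase j).erase k).erase l) hcl
            (Function.update (Function.update (Function.update (Function.update v i a) j b) k c)
              l d)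
          refine h1.trans (Finset.card_le_card ?_)
          intro y hy
          rw [Finset.mem_filter] at hy
          obtain ⟨hy1, hy2⟩ := hy
          rw [Finset.mem_filter, hS, Finset.mem_filter]
          refine ⟨⟨hy1, fun x hx => ?_⟩, ?_, ?_, ?_, ?_⟩
          · have h2 := hy2 x (fun h => hx (Finset.mem_of_mem_erase (Finset.mem_of_mem_erase
              (Finset.mem_of_mem_erase (Finset.mem_of_mem_erase h)))))
            have hx1 : x ≠ i := fun h => hx (h ▸ hi)
            have hx2 : x ≠ j := fun h => hx (h ▸ hjF)
            have hx3 : x ≠ k := fun h => hx (h ▸ hkF)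
            have hx4 : x ≠ l := fun h => hx (h ▸ hlF)
            rwa [Function.update_of_ne hx4, Function.update_of_ne hx3, Function.update_of_ne hx2,
              Function.update_of_ne hx1] at h2
          · have h2 := hy2 i (by simp)
            rwa [Function.update_of_ne (Ne.symm hli), Function.update_of_ne (Ne.symm hki),
              Function.update_of_ne (Ne.symm hji), Function.update_self] at h2
          · have h2 := hy2 j (by simp)
            rwa [Function.update_of_ne (Ne.symm hlj), Function.update_of_ne (Ne.symm hkj),
              Function.update_self] at h2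
          · have h2 := hy2 k (by simp)
            rwa [Function.update_of_ne (Ne.symm hlk), Function.update_self] at h2
          · have h2 := hy2 l (by simp)
            rwa [Function.update_self] at h2
        · intro a b
          rw [← hface i hi j hjF (Ne.symm hji) a b, face_sum S i j k l a b]
        · intro a c
          rw [← hface i hi k hkF (Ne.symm hki) a c, face_sum S i k j l a c]
          congr 1 <;> [congr 1 <;> [congr 1; skip]; skip] <;>
            (congr 1; apply Finset.filter_congr; intro y _; tauto)
        · intro a d
          rw [← hface i hi l hlF (Ne.symm hli) a d, face_sum S i l j k a d]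
          congr 1 <;> [congr 1 <;> [congr 1; skip]; skip] <;>
            (congr 1; apply Finset.filter_congr; intro y _; tauto)
        · intro b c
          rw [← hface j hjF k hkF (Ne.symm hkj) b c, face_sum S j k i l b c]
          congr 1 <;> [congr 1 <;> [congr 1; skip]; skip] <;>
            (congr 1; apply Finset.filter_congr; intro y _; tauto)
        · intro b d
          rw [← hface j hjF l hlF (Ne.symm hlj) b d, face_sum S j l i k b d]
          congr 1 <;> [congr 1 <;> [congr 1; skip]; skip] <;>
            (congr 1; apply Finset.filter_congr; intro y _; tauto)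
        · intro c d
          rw [← hface k hkF l hlF (Ne.symm hlk) c d, face_sum S k l i j c d]
          congr 1 <;> [congr 1 <;> [congr 1; skip]; skip] <;>
            (congr 1; apply Finset.filter_congr; intro y _; tauto)
    · rw [tau, if_neg hm, NN_split T F v i hi]
      have h2 := ih (m + 1) (by omega) (F.erase i) hci (Function.update v i false)
      have h3 := ih (m + 1) (by omega) (F.erase i) hci (Function.update v i true)
      omega

theorem hypercube (n : ℕ) (T : Finset (Fin n → Bool))
    (hT : ∀ x : Fin n → Bool, ∀ i j : Fin n, i ≠ j → ∃ y ∈ T, ∀ l, l ≠ i → l ≠ j → y l = x l) :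
    2 ^ n ≤ 3 * T.card + 2 := by
  have h1 := claim T hT n Finset.univ (by simp) (fun _ => false)
  have h2 : NN T Finset.univ (fun _ => false) = T.card := by
    unfold NN
    simp
  have h3 := tau_two n
  rw [h2] at h1
  rcases Nat.mod_two_eq_zero_or_one n with h | h
  · have := h3.1 h
    omega
  · have := h3.2 h
    omega

end Pool.Agent.H11.GS
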