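import Pool.Agent.H11.GS.Df
import Pool.Agent.H11.GS.Hc

/-!
MP_8923e7_nt, project GS.  Many squares.

Proof.  Let `k ≥ 1` with `2/2^k ≤ ε/4` (for instance) and `ρ = (3ε/4) / (2^k k²)` up to constants (see below).
Let `B` be nonempty, `Y0`.  Put `m = k * (max of B)` (or any bound for all sums of at most `k` elements of `B`) and
choose `Y ≥ Y0`, `Y ≥ 1` with `m ≤ (ε/2) Y`, and by `Rich` a window `(W₀, W₀ + Y]` with at least `(2/3 + ε) Y`
elements of `S`.  For `b : Fin k → B` (a function with values in `B`) and `x : Fin k → Bool` let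
`b_x = ∑_i (if x i then b i else 0) ≤ m`.  For each `b` and `x` the number of `t ∈ (W₀, W₀ + Y]` with `S (t + b_x)`
is at least `(2/3 + ε) Y - m ≥ (2/3 + ε/2) Y`.  So the mean over all `(b, t)` of the cardinality of
`T(b,t) = {x : ¬ S (t + b_x)}` is at most `(1/3 - ε/2) 2^k`.  If `T(b,t)` meets every square,
`|T(b,t)| ≥ (2^k - 2)/3 ≥ (1/3 - ε/4) 2^k` by `hypercube` (`(2/3)/2^k ≤ ε/4`).  By Markov's inequality the
proportion `p` of the `(b,t)` for which `T(b,t)` meets every square satisfies `p (1/3 - ε/4) ≤ 1/3 - ε/2`, that is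
`(1 - p) (1/3 - ε/4) ≥ ε/4`, and `1 - p ≥ ε/4 · 3 ≥ ε/4` (note `1/3 - ε/4 > 0`: the hypothesis `Rich S (2/3 + ε)`
implies `2/3 + ε ≤ 1`).  For these `(b,t)` choose `(x, i, j)`, `i ≠ j`, such that `S (t + b_y)` for all `y` which
agree with `x` outside `{i, j}`; we may take `x i = x j = false`.  By the pigeonhole principle some `(x, i, j)` is
chosen for at least the proportion `(ε/4)/(2^k k²)` of the `(b, t)`, and we may fix the other coordinates of `b`
(those different from `i, j`) such that the proportion of the `(b i, b j, t) ∈ B × B × (W₀, W₀ + Y]` is at least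
`ρ = (ε/4)/(2^k k²)`.  Then `b_x =: g` is fixed and with `t' = t + g ∈ (W, W + Y]`, `W = W₀ + g`:
`S t'`, `S (t' + b i)`, `S (t' + b j)`, `S (t' + b i + b j)`.
-/

namespace Pool.Agent.H11.GS

open Finset

/-- the sums -/
private def sm {k : ℕ} (b : Fin k → ℕ) (x : Fin k → Bool) : ℕ := ∑ i, if x i = true then b i else 0

private theorem sm_upd {k : ℕ} (b : Fin k → ℕ) (x : Fin k → Bool) {i j : Fin k} (hij : i ≠ j)
    (β β' : ℕ) (α α' : Bool) :
    sm (Function.update (Function.update b i β) j β')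
        (Function.update (Function.update x i α) j α') =
      (∑ l, if l ≠ i ∧ l ≠ j ∧ x l = true then b l else 0) + (if α = true then β else 0) +
        (if α' = true then β' else 0) := by
  have h1 : ∀ l, (if (Function.update (Function.update x i α) j α') l = true then
        (Function.update (Function.update b i β) j β') l else 0) =
      (if l ≠ i ∧ l ≠ j ∧ x l = true then b l else 0) +
        (if l = i then (if α = true then β else 0) else 0) +
          (if l = j then (if α' = true then β' else 0) else 0) := by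
    intro l
    by_cases hj : l = j
    · subst hj
      have hi : l ≠ i := fun h => hij h.symm
      simp [hi]
    · by_cases hi : l = i
      · subst hi
        simp [hj]
      · simp [hi, hj]
  unfold sm
  rw [Finset.sum_congr rfl fun l _ => h1 l, sum_add_distrib, sum_add_distrib, sum_ite_eq',
    sum_ite_eq', if_pos (mem_univ _), if_pos (mem_univ _)]

private theorem sm_le {k : ℕ} (B : Finset ℕ) (b : Fin k → ℕ) (hb : ∀ i, b i ∈ B)
    (x : Fin k → Bool) : sm b x ≤ k * B.sup id := by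
  unfold sm
  calc ∑ i, (if x i = true then b i else 0) ≤ ∑ _i : Fin k, B.sup id := by
        refine sum_le_sum fun i _ => ?_
        split_ifs
        · exact le_sup (f := id) (hb i)
        · exact Nat.zero_le _
    _ = k * B.sup id := by rw [sum_const, card_univ, Fintype.card_fin, smul_eq_mul]

open Classical in
private theorem shift_cnt (S : ℕ → Prop) (W Y s : ℕ) :
    cnt S W Y ≤ ((Ioc W (W + Y)).filter (fun t => S (t + s))).card + s := by
  have h1 : (Ioc W (W + Y)).filter (fun n => S n) ⊆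
      ((Ioc W (W + Y)).filter (fun t => S (t + s))).image (fun t => t + s) ∪ Ioc W (W + s) := by
    intro n hn
    rw [mem_filter, mem_Ioc] at hn
    rw [mem_union, mem_Ioc, mem_image]
    by_cases h : n ≤ W + s
    · exact Or.inr ⟨hn.1.1, h⟩
    · refine Or.inl ⟨n - s, ?_, by omega⟩
      rw [mem_filter, mem_Ioc]
      have h2 : n - s + s = n := by omega
      rw [h2]
      exact ⟨⟨by omega, by omega⟩, hn.2⟩
  unfold cnt
  refine (card_le_card h1).trans ((card_union_le _ _).trans ?_)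
  have h2 : (Ioc W (W + s)).card = s := by rw [Nat.card_Ioc]; omega
  rw [h2]
  exact Nat.add_le_add_right card_image_le _

open Classical in
private theorem shift_not (S : ℕ → Prop) {c : ℝ} {W Y s : ℕ} (h : c * (Y : ℝ) ≤ (cnt S W Y : ℝ)) :
    (((Ioc W (W + Y)).filter (fun t => ¬ S (t + s))).card : ℝ) ≤ (1 - c) * Y + s := by
  have h1 := shift_cnt S W Y s
  have h2 := card_filter_add_card_filter_not (s := Ioc W (W + Y)) (fun t => S (t + s))
  have h3 : (Ioc W (W + Y)).card = Y := by rw [Nat.card_Ioc]; omega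
  rw [h3] at h2
  have h4 : (cnt S W Y : ℝ) ≤ (((Ioc W (W + Y)).filter (fun t => S (t + s))).card : ℝ) + s := by
    exact_mod_cast h1
  have h5 : (((Ioc W (W + Y)).filter (fun t => S (t + s))).card : ℝ) +
      (((Ioc W (W + Y)).filter (fun t => ¬ S (t + s))).card : ℝ) = Y := by exact_mod_cast h2
  linarith

private theorem upd_upd {k : ℕ} (b : Fin k → ℕ) {i j : Fin k} (hij : i ≠ j) (β β' : ℕ) :
    Function.update (Function.update (Function.update (Function.update b i β) j β') i (b i)) j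
      (b j) = b := by
  funext l
  by_cases hj : l = j
  · subst hj
    simp
  · by_cases hi : l = i
    · subst hi
      simp [hj]
    · simp [hi, hj]

private theorem upd_mem {k : ℕ} {B : Finset ℕ} {b : Fin k → ℕ}
    (hb : b ∈ Fintype.piFinset fun _ : Fin k => B) (i j : Fin k) {β β' : ℕ} (h : β ∈ B)
    (h' : β' ∈ B) :
    Function.update (Function.update b i β) j β' ∈ Fintype.piFinset fun _ : Fin k => B := by
  rw [Fintype.mem_piFinset] at hb ⊢
  intro l
  by_cases hj : l = j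
  · subst hj
    simpa using h'
  · by_cases hi : l = i
    · subst hi
      simpa [hj] using h
    · simpa [hi, hj] using hb l

open Classical in
private theorem swap_card {k : ℕ} (B I : Finset ℕ) {i j : Fin k} (hij : i ≠ j)
    (Q : (Fin k → ℕ) → ℕ → Prop) :
    (((Fintype.piFinset fun _ : Fin k => B) ×ˢ (B ×ˢ (B ×ˢ I))).filter
        (fun w : (Fin k → ℕ) × ℕ × ℕ × ℕ =>
          Q (Function.update (Function.update w.1 i w.2.1) j w.2.2.1) w.2.2.2)).card =
      (B ×ˢ (B ×ˢ (((Fintype.piFinset fun _ : Fin k => B) ×ˢ I).filter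
        (fun w : (Fin k → ℕ) × ℕ => Q w.1 w.2)))).card := by
  refine card_nbij'
    (fun w : (Fin k → ℕ) × ℕ × ℕ × ℕ => ((w.1 i, w.1 j,
      Function.update (Function.update w.1 i w.2.1) j w.2.2.1, w.2.2.2) :
        ℕ × ℕ × (Fin k → ℕ) × ℕ))
    (fun z : ℕ × ℕ × (Fin k → ℕ) × ℕ =>
      ((Function.update (Function.update z.2.2.1 i z.1) j z.2.1, z.2.2.1 i, z.2.2.1 j, z.2.2.2) :
        (Fin k → ℕ) × ℕ × ℕ × ℕ)) ?_ ?_ ?_ ?_
  · rintro ⟨b, β, β', t⟩ hw
    simp only [coe_filter, mem_product, Set.mem_ofPred_eq] at hw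
    obtain ⟨⟨hb, hβ, hβ', ht⟩, hQ⟩ := hw
    simp only [coe_product, Set.mem_prod, mem_coe, mem_filter, mem_product]
    exact ⟨Fintype.mem_piFinset.1 hb i, Fintype.mem_piFinset.1 hb j,
      ⟨upd_mem hb i j hβ hβ', ht⟩, hQ⟩
  · rintro ⟨γ, γ', b, t⟩ hw
    simp only [coe_product, Set.mem_prod, mem_coe, mem_filter, mem_product] at hw
    obtain ⟨hγ, hγ', ⟨hb, ht⟩, hQ⟩ := hw
    simp only [coe_filter, mem_product, Set.mem_ofPred_eq]
    refine ⟨⟨upd_mem hb i j hγ hγ', Fintype.mem_piFinset.1 hb i, Fintype.mem_piFinset.1 hb j, ht⟩,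
      ?_⟩
    rw [upd_upd b hij]
    exact hQ
  · rintro ⟨b, β, β', t⟩ _
    simp only
    rw [upd_upd b hij]
    simp [hij]
  · rintro ⟨γ, γ', b, t⟩ _
    simp only
    rw [upd_upd b hij]
    simp [hij]

open Classical in
/-- many pairs with a square -/
private theorem good_pairs {ε : ℝ} (hε : 0 < ε) {k : ℕ} (hk : 8 / ε < (2 : ℝ) ^ k)
    (S : ℕ → Prop) (B : Finset ℕ) {W Y : ℕ} (hW : (2 / 3 + ε) * (Y : ℝ) ≤ (cnt S W Y : ℝ))
    (hY : ((k * B.sup id : ℕ) : ℝ) ≤ ε / 2 * Y) :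
    ε / 4 * ((B.card : ℝ) ^ k * Y) ≤
      ((((Fintype.piFinset fun _ : Fin k => B) ×ˢ Ioc W (W + Y)).filter
        (fun w : (Fin k → ℕ) × ℕ => ∃ (x : Fin k → Bool) (i j : Fin k), i ≠ j ∧
          ∀ y : Fin k → Bool, (∀ l, l ≠ i → l ≠ j → y l = x l) → S (w.2 + sm w.1 y))).card : ℝ) := by
  obtain ⟨Gd, hGd⟩ : ∃ Gd : (Fin k → ℕ) × ℕ → Prop, Gd = fun w => ∃ (x : Fin k → Bool)
    (i j : Fin k), i ≠ j ∧ ∀ y : Fin k → Bool, (∀ l, l ≠ i → l ≠ j → y l = x l) →
      S (w.2 + sm w.1 y) := ⟨_, rfl⟩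
  obtain ⟨Ω, hΩ⟩ : ∃ Ω, Ω = (Fintype.piFinset fun _ : Fin k => B) ×ˢ Ioc W (W + Y) := ⟨_, rfl⟩
  have hcongr : ((Ω.filter fun w => Gd w).card : ℝ) =
      ((((Fintype.piFinset fun _ : Fin k => B) ×ˢ Ioc W (W + Y)).filter
        (fun w : (Fin k → ℕ) × ℕ => ∃ (x : Fin k → Bool) (i j : Fin k), i ≠ j ∧
          ∀ y : Fin k → Bool, (∀ l, l ≠ i → l ≠ j → y l = x l) →
            S (w.2 + sm w.1 y))).card : ℝ) := by
    rw [hΩ, hGd]
    congr!
  rw [← hcongr]
  have hΩc : (Ω.card : ℝ) = (B.card : ℝ) ^ k * Y := by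
    rw [hΩ, card_product, Fintype.card_piFinset, prod_const, card_univ, Fintype.card_fin,
      Nat.card_Ioc]
    push_cast
    rw [Nat.cast_sub (by omega)]
    push_cast
    ring
  have hP : (0 : ℝ) < (2 : ℝ) ^ k := by positivity
  have hk2 : 8 < (2 : ℝ) ^ k * ε := by
    rw [div_lt_iff₀ hε] at hk
    exact hk
  -- the cube
  have hcube : ∀ w ∈ Ω.filter (fun w => ¬ Gd w), (2 : ℝ) ^ k / 3 - 2 / 3 ≤
      ((univ.filter fun x : Fin k → Bool => ¬ S (w.2 + sm w.1 x)).card : ℝ) := by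
    intro w hw
    have h1 := (mem_filter.1 hw).2
    have h2 := hypercube k (univ.filter fun x : Fin k → Bool => ¬ S (w.2 + sm w.1 x)) (by
      intro x i j hij
      by_contra hcon
      apply h1
      rw [hGd]
      refine ⟨x, i, j, hij, fun y hy => ?_⟩
      by_contra hS
      exact hcon ⟨y, mem_filter.2 ⟨mem_univ _, hS⟩, hy⟩)
    have h3 : (2 : ℝ) ^ k ≤
        3 * ((univ.filter fun x : Fin k → Bool => ¬ S (w.2 + sm w.1 x)).card : ℝ) + 2 := by
      exact_mod_cast h2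
    linarith
  -- upper bound for the sum
  have hup : ∑ w ∈ Ω, ((univ.filter fun x : Fin k → Bool => ¬ S (w.2 + sm w.1 x)).card : ℝ) ≤
      (B.card : ℝ) ^ k * ((2 : ℝ) ^ k * ((1 / 3 - ε / 2) * Y)) := by
    have e1 : ∀ b ∈ (Fintype.piFinset fun _ : Fin k => B), ∀ x : Fin k → Bool,
        ∑ t ∈ Ioc W (W + Y), (if ¬ S (t + sm b x) then (1 : ℝ) else 0) ≤ (1 / 3 - ε / 2) * Y := by
      intro b hb x
      have h1 := shift_not S (s := sm b x) hW
      have h2 : ((sm b x : ℕ) : ℝ) ≤ ε / 2 * Y :=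
        le_trans (by exact_mod_cast sm_le B b (Fintype.mem_piFinset.1 hb) x) hY
      rw [← sum_filter, sum_const, nsmul_eq_mul, mul_one]
      linarith
    rw [hΩ, sum_product]
    have e2 : ∀ b ∈ (Fintype.piFinset fun _ : Fin k => B),
        ∑ t ∈ Ioc W (W + Y), ((univ.filter fun x : Fin k → Bool => ¬ S (t + sm b x)).card : ℝ) ≤
          (2 : ℝ) ^ k * ((1 / 3 - ε / 2) * Y) := by
      intro b hb
      have e3 : ∑ t ∈ Ioc W (W + Y),
          ((univ.filter fun x : Fin k → Bool => ¬ S (t + sm b x)).card : ℝ) =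
          ∑ x : Fin k → Bool, ∑ t ∈ Ioc W (W + Y), (if ¬ S (t + sm b x) then (1 : ℝ) else 0) := by
        rw [sum_comm]
        refine sum_congr rfl fun t _ => ?_
        rw [← sum_filter, sum_const, nsmul_eq_mul, mul_one]
      rw [e3]
      refine (sum_le_sum fun x _ => e1 b hb x).trans (le_of_eq ?_)
      rw [sum_const, card_univ, Fintype.card_fun, Fintype.card_bool, Fintype.card_fin,
        nsmul_eq_mul]
      push_cast
      ring
    refine (sum_le_sum e2).trans (le_of_eq ?_)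
    rw [sum_const, Fintype.card_piFinset, prod_const, card_univ, Fintype.card_fin, nsmul_eq_mul]
    push_cast
    ring
  have hlow : ((Ω.filter fun w => ¬ Gd w).card : ℝ) * ((2 : ℝ) ^ k / 3 - 2 / 3) ≤
      ∑ w ∈ Ω, ((univ.filter fun x : Fin k → Bool => ¬ S (w.2 + sm w.1 x)).card : ℝ) := by
    calc ((Ω.filter fun w => ¬ Gd w).card : ℝ) * ((2 : ℝ) ^ k / 3 - 2 / 3)
        = ∑ _w ∈ Ω.filter (fun w => ¬ Gd w), ((2 : ℝ) ^ k / 3 - 2 / 3) := by
          rw [sum_const, nsmul_eq_mul]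
      _ ≤ ∑ w ∈ Ω.filter (fun w => ¬ Gd w),
          ((univ.filter fun x : Fin k → Bool => ¬ S (w.2 + sm w.1 x)).card : ℝ) :=
          sum_le_sum hcube
      _ ≤ _ := sum_le_sum_of_subset_of_nonneg (filter_subset _ _) fun w _ _ => Nat.cast_nonneg _
  have hadd : ((Ω.filter fun w => Gd w).card : ℝ) + ((Ω.filter fun w => ¬ Gd w).card : ℝ) =
      (B.card : ℝ) ^ k * Y := by
    rw [← hΩc]
    exact_mod_cast card_filter_add_card_filter_not (s := Ω) (fun w => Gd w)
  obtain ⟨G, hG⟩ : ∃ G : ℝ, G = ((Ω.filter fun w => Gd w).card : ℝ) := ⟨_, rfl⟩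
  obtain ⟨N, hN⟩ : ∃ N : ℝ, N = ((Ω.filter fun w => ¬ Gd w).card : ℝ) := ⟨_, rfl⟩
  obtain ⟨R, hR⟩ : ∃ R : ℝ, R = (B.card : ℝ) ^ k * Y := ⟨_, rfl⟩
  obtain ⟨P, hPd⟩ : ∃ P : ℝ, P = (2 : ℝ) ^ k := ⟨_, rfl⟩
  have hG0 : 0 ≤ G := by rw [hG]; exact Nat.cast_nonneg _
  have hN0 : 0 ≤ N := by rw [hN]; exact Nat.cast_nonneg _
  have hR0 : 0 ≤ R := by rw [hR]; positivity
  have hfin := hlow.trans hup
  have e5 : (B.card : ℝ) ^ k * ((2 : ℝ) ^ k * ((1 / 3 - ε / 2) * Y)) =
      P * ((1 / 3 - ε / 2) * R) := by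
    rw [hPd, hR]
    ring
  rw [e5, ← hN, ← hPd] at hfin
  rw [← hG, ← hN, ← hR] at hadd
  rw [← hPd] at hk2 hP
  rw [← hG, ← hR]
  -- N (P/3 - 2/3) ≤ P (1/3 - ε/2) R, N = R - G, 8 < P ε
  have e6 : N * (P * (1 / 3 - ε / 12)) ≤ N * (P / 3 - 2 / 3) :=
    mul_le_mul_of_nonneg_left (by nlinarith) hN0
  have e7 : P * (N * (1 / 3 - ε / 12)) ≤ P * ((1 / 3 - ε / 2) * R) := by linarith
  have e8 := le_of_mul_le_mul_left e7 hP
  have e9 : N = R - G := by linarith
  rw [e9] at e8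
  nlinarith

open Classical in
theorem sq_window (ε : ℝ) (hε : 0 < ε) : ∃ ρ : ℝ, 0 < ρ ∧
    ∀ S : ℕ → Prop, Rich S (2 / 3 + ε) → ∀ B : Finset ℕ, B.Nonempty → ∀ Y0 : ℕ,
      ∃ Y W : ℕ, Y0 ≤ Y ∧ 1 ≤ Y ∧ ρ * (B.card : ℝ) ^ 2 * (Y : ℝ) ≤
        (((B ×ˢ (B ×ˢ (Ioc W (W + Y)))).filter (fun p : ℕ × ℕ × ℕ =>
          S p.2.2 ∧ S (p.2.2 + p.1) ∧ S (p.2.2 + p.2.1) ∧ S (p.2.2 + p.1 + p.2.1))).card : ℝ) := by
  obtain ⟨k0, hk0⟩ := pow_unbounded_of_one_lt (8 / ε) (one_lt_two : (1 : ℝ) < 2)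
  obtain ⟨k, hkd⟩ : ∃ k, k = k0 + 1 := ⟨_, rfl⟩
  have hk : 8 / ε < (2 : ℝ) ^ k := by
    refine hk0.trans_le ?_
    rw [hkd, pow_succ]
    have : (0 : ℝ) < 2 ^ k0 := by positivity
    linarith
  have hk1 : (0 : ℝ) < k := by
    rw [hkd]
    positivity
  obtain ⟨ρ, hρd⟩ : ∃ ρ : ℝ, ρ = ε / 4 / ((2 : ℝ) ^ k * ((k : ℝ) * k)) := ⟨_, rfl⟩
  have hρ : 0 < ρ := by rw [hρd]; positivity
  refine ⟨ρ, hρ, fun S hS B hB Y0 => ?_⟩
  obtain ⟨Y1, hY1⟩ := exists_nat_gt (((k * B.sup id : ℕ) : ℝ) / (ε / 2))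
  obtain ⟨Y, hYd⟩ : ∃ Y, Y = max Y0 (Y1 + 1) := ⟨_, rfl⟩
  have hYY0 : Y0 ≤ Y := by rw [hYd]; exact le_max_left _ _
  have hYY1 : Y1 + 1 ≤ Y := by rw [hYd]; exact le_max_right _ _
  have hY : ((k * B.sup id : ℕ) : ℝ) ≤ ε / 2 * Y := by
    rw [div_lt_iff₀ (by positivity)] at hY1
    have h1 : (Y1 : ℝ) ≤ Y := by exact_mod_cast (by omega : Y1 ≤ Y)
    nlinarith
  obtain ⟨W, hW⟩ := hS Y (by omega)
  have hgp := good_pairs hε hk S B hW hY
  have hY0r : (0 : ℝ) < Y := by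
    have : 0 < Y := by omega
    exact_mod_cast this
  have hBr : (0 : ℝ) < B.card := by exact_mod_cast hB.card_pos
  -- pigeonhole
  obtain ⟨Q, hQ⟩ : ∃ Q : ((Fin k → Bool) × Fin k × Fin k) → (Fin k → ℕ) → ℕ → Prop,
    Q = fun c b t => c.2.1 ≠ c.2.2 ∧ ∀ y : Fin k → Bool,
      (∀ l, l ≠ c.2.1 → l ≠ c.2.2 → y l = c.1 l) → S (t + sm b y) := ⟨_, rfl⟩
  have hex : ∃ c : (Fin k → Bool) × Fin k × Fin k, ρ * ((B.card : ℝ) ^ k * Y) ≤
      ((((Fintype.piFinset fun _ : Fin k => B) ×ˢ Ioc W (W + Y)).filter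
        (fun w : (Fin k → ℕ) × ℕ => Q c w.1 w.2)).card : ℝ) := by
    by_contra hcon
    rw [not_exists] at hcon
    have h1 : ((((Fintype.piFinset fun _ : Fin k => B) ×ˢ Ioc W (W + Y)).filter
        (fun w : (Fin k → ℕ) × ℕ => ∃ (x : Fin k → Bool) (i j : Fin k), i ≠ j ∧
          ∀ y : Fin k → Bool, (∀ l, l ≠ i → l ≠ j → y l = x l) →
            S (w.2 + sm w.1 y))).card : ℝ) ≤
        ∑ c : (Fin k → Bool) × Fin k × Fin k,
          ((((Fintype.piFinset fun _ : Fin k => B) ×ˢ Ioc W (W + Y)).filter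
            (fun w : (Fin k → ℕ) × ℕ => Q c w.1 w.2)).card : ℝ) := by
      have h2 : (((Fintype.piFinset fun _ : Fin k => B) ×ˢ Ioc W (W + Y)).filter
        (fun w : (Fin k → ℕ) × ℕ => ∃ (x : Fin k → Bool) (i j : Fin k), i ≠ j ∧
          ∀ y : Fin k → Bool, (∀ l, l ≠ i → l ≠ j → y l = x l) → S (w.2 + sm w.1 y))) ⊆
          (univ : Finset ((Fin k → Bool) × Fin k × Fin k)).biUnion fun c =>
            ((Fintype.piFinset fun _ : Fin k => B) ×ˢ Ioc W (W + Y)).filter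
              (fun w : (Fin k → ℕ) × ℕ => Q c w.1 w.2) := by
        intro w hw
        obtain ⟨hw1, x, i, j, hij, hy⟩ := mem_filter.1 hw
        rw [mem_biUnion]
        refine ⟨(x, i, j), mem_univ _, mem_filter.2 ⟨hw1, ?_⟩⟩
        rw [hQ]
        exact ⟨hij, hy⟩
      exact_mod_cast (card_le_card h2).trans card_biUnion_le
    have h3 : ∑ c : (Fin k → Bool) × Fin k × Fin k,
          ((((Fintype.piFinset fun _ : Fin k => B) ×ˢ Ioc W (W + Y)).filter
            (fun w : (Fin k → ℕ) × ℕ => Q c w.1 w.2)).card : ℝ) <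
        ∑ _c : (Fin k → Bool) × Fin k × Fin k, ρ * ((B.card : ℝ) ^ k * Y) := by
      refine sum_lt_sum_of_nonempty ?_ fun c _ => not_le.1 (hcon c)
      rw [hkd]
      exact ⟨(fun _ => true, 0, 0), mem_univ _⟩
    rw [sum_const, card_univ, Fintype.card_prod, Fintype.card_prod, Fintype.card_fun,
      Fintype.card_bool, Fintype.card_fin, nsmul_eq_mul] at h3
    push_cast at h3
    have h4 : (2 : ℝ) ^ k * ((k : ℝ) * k) * (ρ * ((B.card : ℝ) ^ k * Y)) =
        ε / 4 * ((B.card : ℝ) ^ k * Y) := by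
      rw [hρd]
      field_simp
    linarith
  obtain ⟨⟨x, i, j⟩, hc⟩ := hex
  have hij : i ≠ j := by
    have h1 : (0 : ℝ) < ((((Fintype.piFinset fun _ : Fin k => B) ×ˢ Ioc W (W + Y)).filter
        (fun w : (Fin k → ℕ) × ℕ => Q (x, i, j) w.1 w.2)).card : ℝ) :=
      lt_of_lt_of_le (by positivity) hc
    have h2 : 0 < (((Fintype.piFinset fun _ : Fin k => B) ×ˢ Ioc W (W + Y)).filter
        (fun w : (Fin k → ℕ) × ℕ => Q (x, i, j) w.1 w.2)).card := by exact_mod_cast h1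
    obtain ⟨w, hw⟩ := card_pos.1 h2
    have h3 := (mem_filter.1 hw).2
    rw [hQ] at h3
    exact h3.1
  -- fix the other coordinates
  have hsw := swap_card B (Ioc W (W + Y)) hij (Q (x, i, j))
  have hex2 : ∃ b : Fin k → ℕ, ρ * (B.card : ℝ) ^ 2 * (Y : ℝ) ≤
      (((B ×ˢ (B ×ˢ (Ioc W (W + Y)))).filter (fun p : ℕ × ℕ × ℕ =>
        Q (x, i, j) (Function.update (Function.update b i p.1) j p.2.1) p.2.2)).card : ℝ) := by
    by_contra hcon
    rw [not_exists] at hcon
    have h1 : ((((Fintype.piFinset fun _ : Fin k => B) ×ˢ (B ×ˢ (B ×ˢ Ioc W (W + Y)))).filter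
        (fun w : (Fin k → ℕ) × ℕ × ℕ × ℕ => Q (x, i, j)
          (Function.update (Function.update w.1 i w.2.1) j w.2.2.1) w.2.2.2)).card : ℝ) =
        ∑ b ∈ (Fintype.piFinset fun _ : Fin k => B),
          (((B ×ˢ (B ×ˢ (Ioc W (W + Y)))).filter (fun p : ℕ × ℕ × ℕ =>
            Q (x, i, j) (Function.update (Function.update b i p.1) j p.2.1) p.2.2)).card : ℝ) := by
      rw [card_filter, sum_product]
      push_cast
      refine sum_congr rfl fun b _ => ?_
      rw [card_filter]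
      push_cast
      rfl
    have h2 : ∑ b ∈ (Fintype.piFinset fun _ : Fin k => B),
          (((B ×ˢ (B ×ˢ (Ioc W (W + Y)))).filter (fun p : ℕ × ℕ × ℕ =>
            Q (x, i, j) (Function.update (Function.update b i p.1) j p.2.1) p.2.2)).card : ℝ) <
        ∑ _b ∈ (Fintype.piFinset fun _ : Fin k => B), ρ * (B.card : ℝ) ^ 2 * (Y : ℝ) := by
      refine sum_lt_sum_of_nonempty ?_ fun b _ => not_le.1 (hcon b)
      obtain ⟨β, hβ⟩ := hB
      exact ⟨fun _ => β, Fintype.mem_piFinset.2 fun _ => hβ⟩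
    rw [sum_const, Fintype.card_piFinset, prod_const, card_univ, Fintype.card_fin,
      nsmul_eq_mul] at h2
    push_cast at h2
    rw [hsw, card_product, card_product] at h1
    push_cast at h1
    rw [← h1] at h2
    have h3 := mul_le_mul_of_nonneg_left hc (show (0 : ℝ) ≤ (B.card : ℝ) * B.card by positivity)
    nlinarith
  obtain ⟨b, hb⟩ := hex2
  refine ⟨Y, W + ∑ l, (if l ≠ i ∧ l ≠ j ∧ x l = true then b l else 0), hYY0, by omega,
    hb.trans ?_⟩
  obtain ⟨g, hg⟩ : ∃ g, g = ∑ l, (if l ≠ i ∧ l ≠ j ∧ x l = true then b l else 0) := ⟨_, rfl⟩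
  rw [← hg]
  have hcard : ((B ×ˢ (B ×ˢ (Ioc W (W + Y)))).filter (fun p : ℕ × ℕ × ℕ =>
        Q (x, i, j) (Function.update (Function.update b i p.1) j p.2.1) p.2.2)).card ≤
      ((B ×ˢ (B ×ˢ (Ioc (W + g) (W + g + Y)))).filter (fun p : ℕ × ℕ × ℕ =>
          S p.2.2 ∧ S (p.2.2 + p.1) ∧ S (p.2.2 + p.2.1) ∧ S (p.2.2 + p.1 + p.2.1))).card := by
    refine card_le_card_of_injOn (fun p : ℕ × ℕ × ℕ => ((p.1, p.2.1, p.2.2 + g) : ℕ × ℕ × ℕ))
      ?_ ?_
    · rintro ⟨β, β', t⟩ hw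
      simp only [coe_filter, mem_product, Set.mem_ofPred_eq, mem_Ioc] at hw ⊢
      obtain ⟨⟨hβ, hβ', ht1, ht2⟩, hw2⟩ := hw
      rw [hQ] at hw2
      have key : ∀ α α' : Bool, S (t + (g + (if α = true then β else 0) +
          (if α' = true then β' else 0))) := by
        intro α α'
        have h1 := hw2.2 (Function.update (Function.update x i α) j α') (by
          intro l hl hl'
          simp only at hl hl'
          simp [hl, hl'])
        rw [sm_upd b x hij, ← hg] at h1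
        exact h1
      have k1 := key false false
      have k2 := key true false
      have k3 := key false true
      have k4 := key true true
      simp only [if_true, Bool.false_eq_true, if_false, add_zero] at k1 k2 k3 k4
      refine ⟨⟨hβ, hβ', by omega, by omega⟩, k1, ?_, ?_, ?_⟩
      · rw [add_assoc]
        exact k2
      · rw [add_assoc]
        exact k3
      · have e : t + g + β + β' = t + (g + β + β') := by ring
        rw [e]
        exact k4
    · rintro ⟨β, β', t⟩ _ ⟨γ, γ', t'⟩ _ h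
      simp only [Prod.mk.injEq, add_left_inj] at h
      obtain ⟨h1, h2, h3⟩ := h
      rw [h1, h2, h3]
  exact_mod_cast hcard

end Pool.Agent.H11.GS
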