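import Pool.Agent.H11.GS.Df
import Pool.Agent.H11.GS.SqA

/-!
MP_8923e7_nt, project GS.  A positive proportion of quadruples of the second kind.

Proof.  Let `ρ₁` be the constant of `sq_window ε` and `ρ = ρ₁ β² / 2`.  Let `l ≥ 1`, by `Rich S₀ β` choose `v` with
`cnt S₀ v l ≥ β l`, `B = {b ∈ (v, v + l] : S₀ b}` (nonempty since `β l > 0`), and `Y ≥ l`, `W` from `sq_window` with
`Y0 = l`.  The good triples `(b, b', t)`, `t ∈ (W, W + Y]`, number at least `ρ₁ β² l² Y`.  Cover `(W, W + Y]` by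
`Y / l + 1 ≤ 2 Y / l` intervals of length `l` (natural division; `Y ≥ l`): some interval `(z, z + l]` contains
the `t` of at least `ρ₁ β² l² Y / (2 Y / l) = ρ l³` good triples (so `z ≥ W`; intervals may stick out of
`(W, W + Y]`).  To `s ∈ (0, l]` and such a triple associate
`x = (s, s + b, s + b + t, s + b + t + b')`; it is injective, `x 0 ∈ (0, l]`, `x 1 ∈ (v, v + 2l]`,
`x 2 ∈ (v + z, v + z + 3 l]`, `x 3 ∈ (2 v + z, 2 v + z + 4 l]`, all in intervals `(u j, u j + 4 l]` with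
`u = (0, v, v + z, 2 v + z)`.  `x 1 - x 0 = b ∈ S₀`, `x 3 - x 2 = b' ∈ S₀`, `x 2 - x 1 = t ∈ S₁`,
`x 2 - x 0 = t + b ∈ S₁`, `x 3 - x 1 = t + b' ∈ S₁`, `x 3 - x 0 = t + b + b' ∈ S₁`; `b, b', t > 0`.
-/

namespace Pool.Agent.H11.GS

open Finset

open Classical in
/-- pigeonhole on blocks -/
theorem block_pigeon (F : Finset (ℕ × ℕ × ℕ)) (W Y l : ℕ) (hl : 1 ≤ l) (hlY : l ≤ Y)
    (hF : ∀ p ∈ F, W < p.2.2 ∧ p.2.2 ≤ W + Y) (κ : ℝ) (hκ : 0 ≤ κ)
    (h : κ * (l : ℝ) ^ 2 * (Y : ℝ) ≤ (F.card : ℝ)) :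
    ∃ z : ℕ, κ / 2 * (l : ℝ) ^ 3 ≤ ((F.filter (fun p => z < p.2.2 ∧ p.2.2 ≤ z + l)).card : ℝ) := by
  by_contra hcon
  push Not at hcon
  have hl0 : (0 : ℝ) < l := by exact_mod_cast hl
  have hY0 : (0 : ℝ) < Y := by exact_mod_cast (lt_of_lt_of_le hl hlY)
  have hmaps : ∀ p ∈ F, (p.2.2 - W - 1) / l ∈ range (Y / l + 1) := by
    intro p hp
    rw [mem_range]
    have := hF p hp
    have : (p.2.2 - W - 1) / l ≤ Y / l := Nat.div_le_div_right (by omega)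
    omega
  have h1 := card_eq_sum_card_fiberwise (f := fun p : ℕ × ℕ × ℕ => (p.2.2 - W - 1) / l)
    (s := F) (t := range (Y / l + 1)) hmaps
  have h2 : (F.card : ℝ) = ∑ g ∈ range (Y / l + 1),
      ((F.filter (fun p => (p.2.2 - W - 1) / l = g)).card : ℝ) := by
    rw [h1]
    push_cast
    rfl
  have h3 : ∀ g ∈ range (Y / l + 1), ((F.filter (fun p => (p.2.2 - W - 1) / l = g)).card : ℝ) <
      κ / 2 * (l : ℝ) ^ 3 := by
    intro g _
    refine lt_of_le_of_lt ?_ (hcon (W + g * l))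
    have : (F.filter (fun p => (p.2.2 - W - 1) / l = g)).card ≤
        (F.filter (fun p => W + g * l < p.2.2 ∧ p.2.2 ≤ W + g * l + l)).card := by
      apply card_le_card
      intro p hp
      rw [mem_filter] at hp ⊢
      obtain ⟨hp1, hp2⟩ := hp
      have h4 := hF p hp1
      have h5 := Nat.div_mul_le_self (p.2.2 - W - 1) l
      have h6 := Nat.lt_div_mul_add (a := p.2.2 - W - 1) hl
      rw [hp2] at h5 h6
      exact ⟨hp1, by omega, by omega⟩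
    exact_mod_cast this
  have h4 : (F.card : ℝ) < ∑ _g ∈ range (Y / l + 1), κ / 2 * (l : ℝ) ^ 3 := by
    rw [h2]
    exact sum_lt_sum_of_nonempty ⟨0, by simp⟩ h3
  rw [sum_const, card_range, nsmul_eq_mul] at h4
  have h5 : (((Y / l + 1 : ℕ) : ℝ)) ≤ 2 * ((Y : ℝ) / l) := by
    push_cast
    have h6 : ((Y / l : ℕ) : ℝ) ≤ (Y : ℝ) / l := Nat.cast_div_le
    have h7 : (1 : ℝ) ≤ (Y : ℝ) / l := by
      rw [one_le_div hl0]
      exact_mod_cast hlY
    linarith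
  have h6 : (((Y / l + 1 : ℕ) : ℝ)) * (κ / 2 * (l : ℝ) ^ 3) ≤
      2 * ((Y : ℝ) / l) * (κ / 2 * (l : ℝ) ^ 3) :=
    mul_le_mul_of_nonneg_right h5 (by positivity)
  have h7 : 2 * ((Y : ℝ) / l) * (κ / 2 * (l : ℝ) ^ 3) = κ * (l : ℝ) ^ 2 * (Y : ℝ) := by
    field_simp
  linarith

open Classical in
theorem square_quads (S₀ S₁ : ℕ → Prop) (β ε : ℝ) (hβ : 0 < β) (hε : 0 < ε) (h₀ : Rich S₀ β)
    (h₁ : Rich S₁ (2 / 3 + ε)) : ∃ ρ : ℝ, 0 < ρ ∧ ∀ l : ℕ, 1 ≤ l → ∃ u : Fin 4 → ℕ,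
      ρ * (l : ℝ) ^ 4 ≤ (((Fintype.piFinset (fun j : Fin 4 => Ioc (u j) (u j + 4 * l))).filter
        (fun x => QS S₀ S₁ x)).card : ℝ) := by
  obtain ⟨ρ₁, hρ₁, hsq⟩ := sq_window ε hε
  refine ⟨ρ₁ * β ^ 2 / 2, by positivity, ?_⟩
  intro l hl
  have hl0 : (0 : ℝ) < l := by exact_mod_cast hl
  obtain ⟨v, hv⟩ := h₀ l hl
  obtain ⟨B, hB⟩ : ∃ B : Finset ℕ, B = (Ioc v (v + l)).filter (fun n => S₀ n) := ⟨_, rfl⟩
  have hBc : β * (l : ℝ) ≤ (B.card : ℝ) := by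
    rw [hB]
    exact hv
  have hBne : B.Nonempty := by
    rw [← card_pos]
    have : (0 : ℝ) < (B.card : ℝ) := lt_of_lt_of_le (by positivity) hBc
    exact_mod_cast this
  obtain ⟨Y, W, hlY, -, hYW⟩ := hsq S₁ h₁ B hBne l
  obtain ⟨F, hF⟩ : ∃ F : Finset (ℕ × ℕ × ℕ), F = (B ×ˢ (B ×ˢ (Ioc W (W + Y)))).filter
      (fun p : ℕ × ℕ × ℕ => S₁ p.2.2 ∧ S₁ (p.2.2 + p.1) ∧ S₁ (p.2.2 + p.2.1) ∧
        S₁ (p.2.2 + p.1 + p.2.1)) := ⟨_, rfl⟩
  rw [← hF] at hYW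
  have hFm : ∀ p ∈ F, (v < p.1 ∧ p.1 ≤ v + l ∧ S₀ p.1) ∧ (v < p.2.1 ∧ p.2.1 ≤ v + l ∧ S₀ p.2.1) ∧
      (W < p.2.2 ∧ p.2.2 ≤ W + Y) ∧ S₁ p.2.2 ∧ S₁ (p.2.2 + p.1) ∧ S₁ (p.2.2 + p.2.1) ∧
        S₁ (p.2.2 + p.1 + p.2.1) := by
    intro p hp
    rw [hF, mem_filter, mem_product, mem_product, hB, mem_filter, mem_filter, mem_Ioc, mem_Ioc,
      mem_Ioc] at hp
    obtain ⟨⟨⟨⟨a1, a2⟩, a3⟩, ⟨⟨b1, b2⟩, b3⟩, c1, c2⟩, d⟩ := hp
    exact ⟨⟨a1, a2, a3⟩, ⟨b1, b2, b3⟩, ⟨c1, c2⟩, d⟩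
  obtain ⟨z, hz⟩ := block_pigeon F W Y l hl hlY (fun p hp => (hFm p hp).2.2.1) (ρ₁ * β ^ 2)
    (by positivity) (by
      refine le_trans ?_ hYW
      have h1 : (β * (l : ℝ)) ^ 2 ≤ (B.card : ℝ) ^ 2 := by
        apply pow_le_pow_left₀ (by positivity) hBc
      have h2 : ρ₁ * β ^ 2 * (l : ℝ) ^ 2 * Y = ρ₁ * (β * (l : ℝ)) ^ 2 * Y := by ring
      rw [h2]
      apply mul_le_mul_of_nonneg_right _ (Nat.cast_nonneg _)
      exact mul_le_mul_of_nonneg_left h1 hρ₁.le)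
  refine ⟨![0, v, v + z, 2 * v + z], ?_⟩
  have hcard : ((Ioc 0 l) ×ˢ (F.filter (fun p => z < p.2.2 ∧ p.2.2 ≤ z + l))).card ≤
      ((Fintype.piFinset (fun j : Fin 4 => Ioc ((![0, v, v + z, 2 * v + z] : Fin 4 → ℕ) j)
        ((![0, v, v + z, 2 * v + z] : Fin 4 → ℕ) j + 4 * l))).filter
        (fun x => QS S₀ S₁ x)).card := by
    apply card_le_card_of_injOn (fun q : ℕ × ℕ × ℕ × ℕ =>
      ![q.1, q.1 + q.2.1, q.1 + q.2.1 + q.2.2.2, q.1 + q.2.1 + q.2.2.2 + q.2.2.1])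
    · rintro ⟨s, b, b', t⟩ hq
      rw [mem_coe, mem_product, mem_filter, mem_Ioc] at hq
      obtain ⟨⟨hs1, hs2⟩, hp, hz1, hz2⟩ := hq
      simp only at hs1 hs2 hp hz1 hz2
      obtain ⟨⟨a1, a2, a3⟩, ⟨b1, b2, b3⟩, -, d1, d2, d3, d4⟩ := hFm _ hp
      simp only at a1 a2 a3 b1 b2 b3 d1 d2 d3 d4
      rw [mem_coe, mem_filter]
      constructor
      · rw [Fintype.mem_piFinset]
        intro j
        rw [mem_Ioc]
        fin_cases j <;> simp <;> omega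
      · refine ⟨⟨?_, ?_, ?_⟩, ⟨?_, ?_⟩, ?_, ?_, ?_, ?_⟩
        · change s < s + b
          omega
        · change s + b < s + b + t
          omega
        · change s + b + t < s + b + t + b'
          omega
        · change S₀ (s + b - s)
          rw [Nat.add_sub_cancel_left]
          exact a3
        · change S₀ (s + b + t + b' - (s + b + t))
          rw [Nat.add_sub_cancel_left]
          exact b3
        · change S₁ (s + b + t - s)
          have : s + b + t - s = t + b := by omega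
          rw [this]
          exact d2
        · change S₁ (s + b + t - (s + b))
          rw [Nat.add_sub_cancel_left]
          exact d1
        · change S₁ (s + b + t + b' - s)
          have : s + b + t + b' - s = t + b + b' := by omega
          rw [this]
          exact d4
        · change S₁ (s + b + t + b' - (s + b))
          have : s + b + t + b' - (s + b) = t + b' := by omega
          rw [this]
          exact d3
    · rintro ⟨s, b, b', t⟩ _ ⟨s2, b2, b2', t2⟩ _ h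
      have e0 := congrFun h 0
      have e1 := congrFun h 1
      have e2 := congrFun h 2
      have e3 := congrFun h 3
      change s = s2 at e0
      change s + b = s2 + b2 at e1
      change s + b + t = s2 + b2 + t2 at e2
      change s + b + t + b' = s2 + b2 + t2 + b2' at e3
      have g1 : b = b2 := by omega
      have g2 : t = t2 := by omega
      have g3 : b' = b2' := by omega
      rw [e0, g1, g2, g3]
  rw [card_product, Nat.card_Ioc, Nat.sub_zero] at hcard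
  have hcard' : (l : ℝ) * ((F.filter (fun p => z < p.2.2 ∧ p.2.2 ≤ z + l)).card : ℝ) ≤
      (((Fintype.piFinset (fun j : Fin 4 => Ioc ((![0, v, v + z, 2 * v + z] : Fin 4 → ℕ) j)
        ((![0, v, v + z, 2 * v + z] : Fin 4 → ℕ) j + 4 * l))).filter
        (fun x => QS S₀ S₁ x)).card : ℝ) := by
    exact_mod_cast hcard
  refine le_trans ?_ hcard'
  calc ρ₁ * β ^ 2 / 2 * (l : ℝ) ^ 4 = (l : ℝ) * (ρ₁ * β ^ 2 / 2 * (l : ℝ) ^ 3) := by ring
    _ ≤ _ := mul_le_mul_of_nonneg_left hz hl0.le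

end Pool.Agent.H11.GS
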