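import Mathlib

/-!
MP_8923e7_nt, project GS.  Turán's theorem for random graphs (finite).  Mathlib only.

`V` is a finite nonempty set, `T` the number of vertices, and for `i < j < T` a relation `R i j` on `V`; if the
densities of the `R i j` are in the mean at least `2/3 + ε/2` and `T` is large, some four indices
`i 0 < i 1 < i 2 < i 3` have at least `ρ |V|^4` quadruples `y` with `R (i a) (i b) (y a) (y b)` for all `a < b`.

Proof.  Let `T = ⌈8/(3ε)⌉ + 4` (any fixed `T` with `T - 1 ≥ 8/(3 ε)` and `T ≥ 4`) and `ρ = (ε/4)/T^4`.  For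
`s : Fin T → V` let `G s` be the graph on `Fin T` with `i ~ j` iff (`i < j` and `R i j (s i) (s j)`) or the same with
`i, j` exchanged, `e s` the number of its edges.
The sum over `s` of `e s` is `∑_{i<j} |V|^(T-2) #{(y, y') : R i j y y'} ≥ |V|^T (2/3 + ε/2) T(T-1)/2` (the
hypothesis, summed over `j < T`; `∑_{j<T} j = T(T-1)/2`).
If `G s` contains no `K_4`, then `e s ≤ T²/3` (Mathlib: `SimpleGraph.CliqueFree.card_edgeFinset_le` and
`SimpleGraph.mul_card_edgeFinset_turanGraph_le` in `Mathlib/Combinatorics/SimpleGraph/Extremal/Turan.lean`).  Always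
`e s ≤ T(T-1)/2`.  So the proportion `p` of the `s` for which `G s` contains a `K_4` satisfies
`(2/3 + ε/2) T(T-1)/2 ≤ p T(T-1)/2 + T²/3`, `p ≥ 2/3 + ε/2 - (2/3) T/(T-1) = ε/2 - 2/(3(T-1)) ≥ ε/4`.
For such `s` choose four vertices `i 0 < i 1 < i 2 < i 3` of a `K_4` (the order embedding of a 4-element subset of
`Fin T`).  By the pigeonhole principle some `i : Fin 4 → ℕ` is chosen for at least `p |V|^T / T^4` of the `s`.  The
condition depends on the four coordinates `s (i a)` only, so the number of these `s` is at most `|V|^(T-4)` times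
the number of the good `y`.
-/

namespace Pool.Agent.H11.GS

open Finset

open Classical in
private theorem tb_blow {k T : ℕ} (f : Fin k → Fin T) (hf : Function.Injective f) (V : Finset ℕ)
    (P : (Fin k → ℕ) → Prop) :
    V.card ^ k * ((Fintype.piFinset (fun _ : Fin T => V)).filter (fun s => P (s ∘ f))).card =
      V.card ^ T * ((Fintype.piFinset (fun _ : Fin k => V)).filter P).card := by
  have hmem : ∀ (y : Fin k → ℕ) (s : Fin T → ℕ), (∀ a, y a ∈ V) → (∀ t, s t ∈ V) →
      ∀ t, Function.extend f y s t ∈ V := by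
    intro y s hy hs t
    by_cases h : ∃ a, f a = t
    · obtain ⟨a, rfl⟩ := h
      rw [hf.extend_apply]
      exact hy a
    · rw [Function.extend_apply' _ _ _ h]
      exact hs t
  have hinv : ∀ (y : Fin k → ℕ) (s : Fin T → ℕ),
      Function.extend f (s ∘ f) (Function.extend f y s) = s := by
    intro y s
    funext t
    by_cases h : ∃ a, f a = t
    · obtain ⟨a, rfl⟩ := h
      rw [hf.extend_apply]
      rfl
    · rw [Function.extend_apply' _ _ _ h, Function.extend_apply' _ _ _ h]
  have hcomp : ∀ (y : Fin k → ℕ) (s : Fin T → ℕ), Function.extend f y s ∘ f = y := by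
    intro y s
    funext a
    exact hf.extend_apply _ _ _
  have h1 : (((Fintype.piFinset (fun _ : Fin T => V)).filter (fun s => P (s ∘ f))) ×ˢ
      (Fintype.piFinset (fun _ : Fin k => V))).card =
      ((Fintype.piFinset (fun _ : Fin T => V)) ×ˢ
        ((Fintype.piFinset (fun _ : Fin k => V)).filter P)).card := by
    refine Finset.card_nbij' (fun q => (Function.extend f q.2 q.1, q.1 ∘ f))
      (fun q => (Function.extend f q.2 q.1, q.1 ∘ f)) ?_ ?_ ?_ ?_
    · rintro ⟨s, y⟩ h
      simp only [Finset.coe_product, Set.mem_prod, Finset.mem_coe, Finset.mem_filter,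
        Fintype.mem_piFinset] at h ⊢
      exact ⟨hmem y s h.2 h.1.1, fun a => h.1.1 _, h.1.2⟩
    · rintro ⟨s, y⟩ h
      simp only [Finset.coe_product, Set.mem_prod, Finset.mem_coe, Finset.mem_filter,
        Fintype.mem_piFinset] at h ⊢
      refine ⟨⟨hmem y s h.2.1 h.1, ?_⟩, fun a => h.1 _⟩
      rw [hcomp]
      exact h.2.2
    · rintro ⟨s, y⟩ _
      simp only [hinv, hcomp]
    · rintro ⟨s, y⟩ _
      simp only [hinv, hcomp]
  rw [Finset.card_product, Finset.card_product, Fintype.card_piFinset_const,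
    Fintype.card_piFinset_const] at h1
  rw [mul_comm, h1]

/-- the graph of a choice of elements -/
private def tbG {T : ℕ} (R : ℕ → ℕ → ℕ → ℕ → Prop) (s : Fin T → ℕ) : SimpleGraph (Fin T) where
  Adj i j := (i < j ∧ R i j (s i) (s j)) ∨ (j < i ∧ R j i (s j) (s i))
  symm := ⟨fun i j h => h.symm⟩
  loopless := ⟨fun i h => by
    rcases h with h | h <;> exact lt_irrefl _ h.1⟩

open Classical in
private theorem tb_edge {T : ℕ} (R : ℕ → ℕ → ℕ → ℕ → Prop) (s : Fin T → ℕ) :
    ((Finset.univ : Finset (Fin T × Fin T)).filter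
      (fun q => q.1 < q.2 ∧ R q.1 q.2 (s q.1) (s q.2))).card ≤ (tbG R s).edgeFinset.card := by
  refine Finset.card_le_card_of_injOn (fun q => s(q.1, q.2)) ?_ ?_
  · intro q hq
    rw [Finset.mem_coe, Finset.mem_filter] at hq
    rw [Finset.mem_coe, SimpleGraph.mem_edgeFinset, SimpleGraph.mem_edgeSet]
    exact Or.inl hq.2
  · rintro ⟨a, b⟩ hq ⟨a', b'⟩ hq' h
    rw [Finset.mem_coe, Finset.mem_filter] at hq hq'
    have h1 := hq.2.1
    have h2 := hq'.2.1
    simp only [Sym2.eq_iff] at h
    rcases h with ⟨h3, h4⟩ | ⟨h3, h4⟩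
    · rw [h3, h4]
    · exfalso
      simp only at h1 h2
      rw [h3, h4] at h1
      exact lt_asymm h1 h2

open Classical in
private theorem tb_free {T : ℕ} (R : ℕ → ℕ → ℕ → ℕ → Prop) (s : Fin T → ℕ)
    (h : (tbG R s).CliqueFree 4) :
    (((Finset.univ : Finset (Fin T × Fin T)).filter
      (fun q => q.1 < q.2 ∧ R q.1 q.2 (s q.1) (s q.2))).card : ℝ) ≤ (T : ℝ) ^ 2 / 3 := by
  have h1 := tb_edge R s
  have h2 := SimpleGraph.CliqueFree.card_edgeFinset_le (r := 3) h
  simp only [Fintype.card_fin] at h2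
  rw [← SimpleGraph.card_edgeFinset_turanGraph] at h2
  have h3 := SimpleGraph.mul_card_edgeFinset_turanGraph_le (n := T) (r := 3)
  have h4 : 3 * ((Finset.univ : Finset (Fin T × Fin T)).filter
      (fun q => q.1 < q.2 ∧ R q.1 q.2 (s q.1) (s q.2))).card ≤ T ^ 2 := by omega
  rw [le_div_iff₀ (by norm_num)]
  have h5 : ((3 * ((Finset.univ : Finset (Fin T × Fin T)).filter
      (fun q => q.1 < q.2 ∧ R q.1 q.2 (s q.1) (s q.2))).card : ℕ) : ℝ) ≤ ((T ^ 2 : ℕ) : ℝ) := by
    exact_mod_cast h4
  push_cast at h5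
  linarith

open Classical in
private theorem tb_all {T : ℕ} (R : ℕ → ℕ → ℕ → ℕ → Prop) (s : Fin T → ℕ) :
    (((Finset.univ : Finset (Fin T × Fin T)).filter
      (fun q => q.1 < q.2 ∧ R q.1 q.2 (s q.1) (s q.2))).card : ℝ) ≤ (T : ℝ) * (T - 1) / 2 := by
  have h1 := (tb_edge R s).trans (SimpleGraph.card_edgeFinset_le_card_choose_two (G := tbG R s))
  rw [Fintype.card_fin] at h1
  rw [← Nat.cast_choose_two ℝ T]
  exact_mod_cast h1

open Classical in
theorem turan_blow (ε : ℝ) (hε : 0 < ε) : ∃ (T : ℕ) (ρ : ℝ), 0 < ρ ∧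
    ∀ (V : Finset ℕ) (R : ℕ → ℕ → ℕ → ℕ → Prop), V.Nonempty →
      (∀ j, j < T → (j : ℝ) * (2 / 3 + ε / 2) * (V.card : ℝ) ^ 2 ≤
        ∑ i ∈ range j, (((V ×ˢ V).filter (fun s : ℕ × ℕ => R i j s.1 s.2)).card : ℝ)) →
      ∃ i : Fin 4 → ℕ, (∀ a b, a < b → i a < i b) ∧ (∀ a, i a < T) ∧
        ρ * (V.card : ℝ) ^ 4 ≤ (((Fintype.piFinset (fun _ : Fin 4 => V)).filter
          (fun y => ∀ a b, a < b → R (i a) (i b) (y a) (y b))).card : ℝ) := by
  obtain ⟨T, hT⟩ : ∃ T : ℕ, T = ⌈8 / (3 * ε)⌉₊ + 4 := ⟨_, rfl⟩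
  have hT4 : 4 ≤ T := by omega
  have hTR : (4 : ℝ) ≤ T := by exact_mod_cast hT4
  have hT1 : 8 / (3 * ε) ≤ (T : ℝ) - 1 := by
    have h1 := Nat.le_ceil (8 / (3 * ε))
    rw [hT]
    push_cast
    linarith
  have hTε : 8 ≤ 3 * ε * ((T : ℝ) - 1) := by
    rw [div_le_iff₀ (by positivity)] at hT1
    linarith
  refine ⟨T, ε / 4 / (T : ℝ) ^ 4, by positivity, fun V R hV hR => ?_⟩
  have hn : (0 : ℝ) < V.card := by exact_mod_cast hV.card_pos
  by_contra hcon
  push Not at hcon
  obtain ⟨S, hS⟩ : ∃ S : Finset (Fin T → ℕ), S = Fintype.piFinset (fun _ : Fin T => V) := ⟨_, rfl⟩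
  have hScard : (S.card : ℝ) = (V.card : ℝ) ^ T := by
    rw [hS, Fintype.card_piFinset_const]
    push_cast
    rfl
  obtain ⟨e, he⟩ : ∃ e : (Fin T → ℕ) → ℝ, e = fun s => (((Finset.univ :
    Finset (Fin T × Fin T)).filter (fun q => q.1 < q.2 ∧ R q.1 q.2 (s q.1) (s q.2))).card : ℝ) :=
    ⟨_, rfl⟩
  -- the lower bound for the number of edges
  have hlow : (V.card : ℝ) ^ T * ((2 / 3 + ε / 2) * ((T : ℝ) * (T - 1) / 2)) ≤ ∑ s ∈ S, e s := by
    have h1 : ∀ i j : Fin T, i < j → (V.card : ℝ) ^ 2 *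
        ((S.filter (fun s => R i j (s i) (s j))).card : ℝ) =
        (V.card : ℝ) ^ T * (((V ×ˢ V).filter (fun s : ℕ × ℕ => R i j s.1 s.2)).card : ℝ) := by
      intro i j hij
      have h2 := tb_blow (T := T) (k := 2) ![i, j] (by
        intro a b hab
        fin_cases a <;> fin_cases b
        · rfl
        · exact absurd hab (ne_of_lt hij)
        · exact absurd hab (ne_of_gt hij)
        · rfl) V (fun y => R i j (y 0) (y 1))
      have h3 : ((Fintype.piFinset (fun _ : Fin 2 => V)).filter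
          (fun y => R i j (y 0) (y 1))).card =
          ((V ×ˢ V).filter (fun s : ℕ × ℕ => R i j s.1 s.2)).card := by
        refine Finset.card_nbij' (fun y => (y 0, y 1)) (fun q => ![q.1, q.2]) ?_ ?_ ?_ ?_
        · intro y hy
          simp only [Finset.mem_coe, Finset.mem_filter, Fintype.mem_piFinset,
            Finset.mem_product] at hy ⊢
          exact ⟨⟨hy.1 0, hy.1 1⟩, hy.2⟩
        · rintro ⟨a, b⟩ hq
          simp only [Finset.mem_coe, Finset.mem_filter, Fintype.mem_piFinset,
            Finset.mem_product] at hq ⊢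
          refine ⟨fun k => ?_, hq.2⟩
          fin_cases k
          · exact hq.1.1
          · exact hq.1.2
        · intro y _
          funext k
          fin_cases k <;> rfl
        · rintro ⟨a, b⟩ _
          rfl
      rw [h3] at h2
      rw [hS]
      exact_mod_cast h2
    have h2 : ∑ s ∈ S, e s = ∑ q : Fin T × Fin T, if q.1 < q.2 then
        ((S.filter (fun s => R q.1 q.2 (s q.1) (s q.2))).card : ℝ) else 0 := by
      rw [he]
      simp only [Finset.card_filter]
      push_cast
      rw [Finset.sum_comm]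
      refine Finset.sum_congr rfl fun q _ => ?_
      split_ifs with h
      · refine Finset.sum_congr rfl fun s _ => ?_
        simp [h]
      · refine Finset.sum_eq_zero fun s _ => ?_
        simp [h]
    have h3 : (V.card : ℝ) ^ 2 * ∑ s ∈ S, e s = (V.card : ℝ) ^ T * ∑ j ∈ range T, ∑ i ∈ range j,
        (((V ×ˢ V).filter (fun s : ℕ × ℕ => R i j s.1 s.2)).card : ℝ) := by
      rw [h2, Fintype.sum_prod_type_right, Finset.sum_range, Finset.mul_sum, Finset.mul_sum]
      refine Finset.sum_congr rfl fun j _ => ?_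
      have h4 : ∑ i ∈ range (j : ℕ),
          (((V ×ˢ V).filter (fun s : ℕ × ℕ => R i j s.1 s.2)).card : ℝ) =
          ∑ i ∈ range T, if i < (j : ℕ) then
          (((V ×ˢ V).filter (fun s : ℕ × ℕ => R i j s.1 s.2)).card : ℝ) else 0 := by
        rw [← Finset.sum_filter]
        refine Finset.sum_congr ?_ fun _ _ => rfl
        ext i
        simp only [Finset.mem_range, Finset.mem_filter]
        have := j.2
        omega
      rw [h4, Finset.sum_range, Finset.mul_sum, Finset.mul_sum]
      refine Finset.sum_congr rfl fun i _ => ?_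
      by_cases h5 : i < j
      · rw [if_pos h5, if_pos (by exact_mod_cast h5), h1 i j h5]
      · rw [if_neg h5, if_neg (by exact_mod_cast h5), mul_zero, mul_zero]
    have h4 : (2 / 3 + ε / 2) * (V.card : ℝ) ^ 2 * ((T : ℝ) * (T - 1) / 2) ≤
        ∑ j ∈ range T, ∑ i ∈ range j,
        (((V ×ˢ V).filter (fun s : ℕ × ℕ => R i j s.1 s.2)).card : ℝ) := by
      have h5 : ((∑ j ∈ range T, (j : ℝ)) : ℝ) = (T : ℝ) * (T - 1) / 2 := by
        have h6 := Finset.sum_range_id_mul_two T
        have h7 : ((∑ j ∈ range T, j : ℕ) : ℝ) * 2 = (T : ℝ) * ((T - 1 : ℕ) : ℝ) := by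
          exact_mod_cast h6
        rw [Nat.cast_sub (by omega : 1 ≤ T)] at h7
        push_cast at h7
        linarith
      rw [← h5, Finset.mul_sum]
      refine Finset.sum_le_sum fun j hj => ?_
      refine le_trans (le_of_eq ?_) (hR j (Finset.mem_range.1 hj))
      ring
    have h5 : (V.card : ℝ) ^ 2 * ((V.card : ℝ) ^ T * ((2 / 3 + ε / 2) *
        ((T : ℝ) * (T - 1) / 2))) ≤ (V.card : ℝ) ^ 2 * ∑ s ∈ S, e s := by
      rw [h3]
      calc (V.card : ℝ) ^ 2 * ((V.card : ℝ) ^ T * ((2 / 3 + ε / 2) * ((T : ℝ) * (T - 1) / 2)))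
          = (V.card : ℝ) ^ T * ((2 / 3 + ε / 2) * (V.card : ℝ) ^ 2 *
            ((T : ℝ) * (T - 1) / 2)) := by ring
        _ ≤ _ := mul_le_mul_of_nonneg_left h4 (by positivity)
    exact le_of_mul_le_mul_left h5 (by positivity)
  -- the upper bound
  obtain ⟨B, hB⟩ : ∃ B : Finset (Fin T → ℕ), B = S.filter (fun s => ¬ (tbG R s).CliqueFree 4) :=
    ⟨_, rfl⟩
  have hup : ∑ s ∈ S, e s ≤ (B.card : ℝ) * ((T : ℝ) * (T - 1) / 2) +
      (V.card : ℝ) ^ T * ((T : ℝ) ^ 2 / 3) := by
    have h1 : ∀ s ∈ S, e s ≤ (if ¬ (tbG R s).CliqueFree 4 then (T : ℝ) * (T - 1) / 2 else 0) +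
        (T : ℝ) ^ 2 / 3 := by
      intro s _
      by_cases h : (tbG R s).CliqueFree 4
      · rw [if_neg (not_not.2 h), zero_add, he]
        exact tb_free R s h
      · rw [if_pos h, he]
        have h2 := tb_all R s
        have h3 : 0 ≤ (T : ℝ) ^ 2 / 3 := by positivity
        simp only
        linarith
    refine (Finset.sum_le_sum h1).trans ?_
    rw [Finset.sum_add_distrib, ← Finset.sum_filter, ← hB, Finset.sum_const, Finset.sum_const,
      nsmul_eq_mul, nsmul_eq_mul, hScard]
  have hBlow : (V.card : ℝ) ^ T * (ε / 4) ≤ B.card := by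
    have h1 := hlow.trans hup
    have h2 : 0 < (V.card : ℝ) ^ T := by positivity
    have h3 : (ε / 4) * ((T : ℝ) * (T - 1) / 2) + (T : ℝ) ^ 2 / 3 ≤
        (2 / 3 + ε / 2) * ((T : ℝ) * (T - 1) / 2) := by nlinarith
    have h4 := mul_le_mul_of_nonneg_left h3 h2.le
    have h5 : ((V.card : ℝ) ^ T * (ε / 4)) * ((T : ℝ) * (T - 1) / 2) ≤
        B.card * ((T : ℝ) * (T - 1) / 2) := by nlinarith
    exact le_of_mul_le_mul_right h5 (by nlinarith)
  -- the pigeonhole principle
  have hBup : (B.card : ℝ) < (V.card : ℝ) ^ T * (ε / 4) := by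
    have h1 : B ⊆ (Finset.univ : Finset (Fin 4 → Fin T)).biUnion (fun f =>
        if (∀ a b, a < b → f a < f b) then
          S.filter (fun s => ∀ a b, a < b → R (f a) (f b) (s (f a)) (s (f b))) else ∅) := by
      intro s hs
      rw [hB, Finset.mem_filter] at hs
      obtain ⟨hsS, hs2⟩ := hs
      unfold SimpleGraph.CliqueFree at hs2
      push Not at hs2
      obtain ⟨t, ht⟩ := hs2
      have htc : t.card = 4 := ht.card_eq
      rw [Finset.mem_biUnion]
      refine ⟨fun a => t.orderEmbOfFin htc a, Finset.mem_univ _, ?_⟩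
      have hmono : ∀ a b : Fin 4, a < b → t.orderEmbOfFin htc a < t.orderEmbOfFin htc b :=
        fun a b hab => (OrderEmbedding.lt_iff_lt _).2 hab
      rw [if_pos hmono, Finset.mem_filter]
      refine ⟨hsS, fun a b hab => ?_⟩
      have h2 := hmono a b hab
      have h3 := ht.isClique (Finset.orderEmbOfFin_mem t htc a) (Finset.orderEmbOfFin_mem t htc b)
        h2.ne
      rcases h3 with h3 | h3
      · exact h3.2
      · exact absurd h3.1 (lt_asymm h2)
    have h2 : ∀ f : Fin 4 → Fin T, (((if (∀ a b, a < b → f a < f b) then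
          S.filter (fun s => ∀ a b, a < b → R (f a) (f b) (s (f a)) (s (f b))) else ∅) :
          Finset (Fin T → ℕ)).card : ℝ) < (V.card : ℝ) ^ T * (ε / 4 / (T : ℝ) ^ 4) := by
      intro f
      split_ifs with hf
      · have hinj : Function.Injective f := by
          intro a b hab
          rcases lt_trichotomy a b with h | h | h
          · exact absurd hab (hf a b h).ne
          · exact h
          · exact absurd hab (hf b a h).ne'
        have h3 := tb_blow f hinj V (fun y => ∀ a b, a < b → R (f a) (f b) (y a) (y b))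
        have h4 := hcon (fun a => (f a : ℕ)) (fun a b hab => hf a b hab) (fun a => (f a).2)
        rw [← hS] at h3
        simp only [Function.comp_apply] at h3
        have h5 : (V.card : ℝ) ^ 4 * ((S.filter (fun s => ∀ a b, a < b →
            R (f a) (f b) (s (f a)) (s (f b)))).card : ℝ) = (V.card : ℝ) ^ T *
            (((Fintype.piFinset (fun _ : Fin 4 => V)).filter
            (fun y => ∀ a b, a < b → R (f a) (f b) (y a) (y b))).card : ℝ) := by
          have h3' := congrArg (Nat.cast : ℕ → ℝ) h3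
          push_cast at h3'
          convert h3'
          rfl
        have h6 : 0 < (V.card : ℝ) ^ 4 := by positivity
        have h7 : 0 < (V.card : ℝ) ^ T := by positivity
        refine lt_of_mul_lt_mul_left ?_ h6.le
        rw [h5]
        calc (V.card : ℝ) ^ T * (((Fintype.piFinset (fun _ : Fin 4 => V)).filter
            (fun y => ∀ a b, a < b → R (f a) (f b) (y a) (y b))).card : ℝ)
            < (V.card : ℝ) ^ T * (ε / 4 / (T : ℝ) ^ 4 * (V.card : ℝ) ^ 4) :=
              mul_lt_mul_of_pos_left h4 h7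
          _ = _ := by ring
      · rw [Finset.card_empty, Nat.cast_zero]
        positivity
    have h3 : (B.card : ℝ) ≤ ∑ f : Fin 4 → Fin T, (((if (∀ a b, a < b → f a < f b) then
          S.filter (fun s => ∀ a b, a < b → R (f a) (f b) (s (f a)) (s (f b))) else ∅) :
          Finset (Fin T → ℕ)).card : ℝ) := by
      have h4 := (Finset.card_le_card h1).trans Finset.card_biUnion_le
      exact_mod_cast h4
    have hT0 : 0 < T := by omega
    have h4 : ∑ f : Fin 4 → Fin T, (((if (∀ a b, a < b → f a < f b) then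
          S.filter (fun s => ∀ a b, a < b → R (f a) (f b) (s (f a)) (s (f b))) else ∅) :
          Finset (Fin T → ℕ)).card : ℝ) <
        ∑ _f : Fin 4 → Fin T, (V.card : ℝ) ^ T * (ε / 4 / (T : ℝ) ^ 4) :=
      Finset.sum_lt_sum_of_nonempty ⟨fun _ => ⟨0, hT0⟩, Finset.mem_univ _⟩ fun f _ => h2 f
    rw [Finset.sum_const, Finset.card_univ, Fintype.card_fun, Fintype.card_fin, Fintype.card_fin,
      nsmul_eq_mul] at h4
    refine h3.trans_lt (h4.trans_le (le_of_eq ?_))
    push_cast
    field_simp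
  linarith

end Pool.Agent.H11.GS
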