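import Pool.Agent.H11.GS.TurA
import Pool.Agent.H11.GS.TurB

/-!
MP_8923e7_nt, project GS.  A positive proportion of quadruples with all differences in a set of upper density
greater than `2/3`.
-/

namespace Pool.Agent.H11.GS

open Finset

open Classical in
theorem turan_quads (S : ℕ → Prop) (ε : ℝ) (hε : 0 < ε) (h : Rich S (2 / 3 + ε)) :
    ∃ ρ : ℝ, 0 < ρ ∧ ∀ l : ℕ, 1 ≤ l → ∃ u : Fin 4 → ℕ,
      ρ * (l : ℝ) ^ 4 ≤ (((Fintype.piFinset (fun j : Fin 4 => Ioc (u j) (u j + l))).filter
        (fun x => QT S x)).card : ℝ) := by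
  obtain ⟨T, ρ, hρ, hT⟩ := turan_blow ε hε
  refine ⟨ρ, hρ, fun l hl => ?_⟩
  obtain ⟨M, hM1, hM2⟩ := times S ε hε h l hl T
  obtain ⟨i, hi1, hi2, hi3⟩ := hT (Ioc 0 l) (fun i j s s' => S ((M j + s') - (M i + s)))
    ⟨1, by simp; omega⟩ (by
      intro j hj
      have h1 := hM2 j hj
      simpa using h1)
  refine ⟨fun a => M (i a), ?_⟩
  have hc : (Ioc 0 l).card = l := by simp
  rw [hc] at hi3
  refine hi3.trans ?_
  have : ((Fintype.piFinset (fun _ : Fin 4 => Ioc 0 l)).filter
      (fun y => ∀ a b, a < b → S ((M (i b) + y b) - (M (i a) + y a)))).card ≤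
      ((Fintype.piFinset (fun j : Fin 4 => Ioc (M (i j)) (M (i j) + l))).filter
        (fun x => QT S x)).card := by
    apply card_le_card_of_injOn (fun y a => M (i a) + y a)
    · intro y hy
      rw [mem_coe, mem_filter] at hy
      obtain ⟨hy1, hy2⟩ := hy
      have hy1' : ∀ a, 0 < y a ∧ y a ≤ l := fun a => mem_Ioc.1 ((Fintype.mem_piFinset.1 hy1) a)
      have : (fun a => M (i a) + y a) ∈ (Fintype.piFinset (fun j : Fin 4 => Ioc (M (i j)) (M (i j) + l))).filter
        (fun x => QT S x) := by
        rw [mem_filter]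
        refine ⟨Fintype.mem_piFinset.2 fun a => mem_Ioc.2 ⟨?_, ?_⟩, fun a b hab => ⟨?_, hy2 a b hab⟩⟩
        · have := hy1' a
          omega
        · have := hy1' a
          omega
        · have h1 := hM1 (i a) (i b) (hi1 a b hab) (hi2 b)
          have h2 := hy1' a
          have h3 := hy1' b
          change M (i a) + y a < M (i b) + y b
          omega
      exact this
    · intro y _ y' _ hyy
      funext a
      have := congrFun hyy a
      simp only at this
      omega
  exact_mod_cast this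

end Pool.Agent.H11.GS
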