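import Pool.Agent.H11.GS.Win
import Pool.Agent.H11.GS.Tur
import Pool.Agent.H11.GS.SqB
import Pool.Agent.H11.GS.Ctr

/-!
MP_8923e7_nt, project GS.  A third of the multiples of every even number; dichotomy.
-/

namespace Pool.Agent.H11.GS

open Finset

/-- (T) -/
theorem ubd_T (G : ℕ → Prop) (hG : P4 G) (q : ℕ) (hq : 0 < q) (h6 : 6 ∣ q) :
    Ubd (fun m => ¬ G (q * m)) (2 / 3) := by
  rcases ubd_or_rich (fun m => ¬ G (q * m)) (2 / 3) (by norm_num) with h | ⟨ε, hε, h⟩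
  · exact h
  · obtain ⟨ρ, hρ, h1⟩ := turan_quads _ ε hε h
    exact (con_T G hG q hq h6 ρ hρ h1).elim

/-- (I) -/
theorem ubd_S (G : ℕ → Prop) (hG : P4 G) (Q : ℕ) (hQ : 0 < Q) (h2 : 2 ∣ Q) :
    Ubd (fun m => ¬ G (3 * Q * m)) 0 ∨ ∀ e : ℕ, Ubd (fun m => ¬ G (3 * Q * m + e * Q)) (2 / 3) := by
  by_contra hcon
  push Not at hcon
  obtain ⟨h0, e, he⟩ := hcon
  rcases ubd_or_rich (fun m => ¬ G (3 * Q * m)) 0 le_rfl with h | ⟨β, hβ, hr0⟩
  · exact h0 h
  rcases ubd_or_rich (fun m => ¬ G (3 * Q * m + e * Q)) (2 / 3) (by norm_num) with h | ⟨ε, hε, hr1⟩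
  · exact he h
  obtain ⟨ρ, hρ, h1⟩ := square_quads _ _ (0 + β) ε (by linarith) hε hr0 hr1
  exact con_S G hG Q hQ h2 e ρ hρ h1

/-- complement -/
theorem cnt_not (S : ℕ → Prop) (M X : ℕ) : cnt S M X + cnt (fun n => ¬ S n) M X = X := by
  classical
  unfold cnt
  rw [Finset.card_filter_add_card_filter_not]
  simp

theorem cnt_le (S : ℕ → Prop) (M X : ℕ) : cnt S M X ≤ X := by
  have := cnt_not S M X
  omega

theorem ubd_one (S : ℕ → Prop) : Ubd S 1 := by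
  intro ε hε
  refine ⟨0, fun X M _ => ?_⟩
  have h1 : (cnt S M X : ℝ) ≤ X := by exact_mod_cast cnt_le S M X
  have h2 : (0 : ℝ) ≤ X := Nat.cast_nonneg _
  nlinarith

/-- one class modulo 3 -/
theorem cnt_class (S P R : ℕ → Prop) (e : ℕ) (he : e < 3) (hP : ∀ n, P n → S n ∧ n % 3 = e)
    (hR : ∀ m, S (3 * m + e) → R m) (M X : ℕ) :
    cnt P M X ≤ cnt R (M / 3) (X / 3 + 1) + 1 := by
  classical
  unfold cnt
  have h1 : ((Ioc M (M + X)).filter (fun n => P n)).card ≤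
      (insert (M / 3) ((Ioc (M / 3) (M / 3 + (X / 3 + 1))).filter (fun m => R m))).card := by
    apply card_le_card_of_injOn (fun n => n / 3)
    · intro n hn
      rw [mem_coe, mem_filter, mem_Ioc] at hn
      obtain ⟨⟨hn1, hn2⟩, hn3⟩ := hn
      obtain ⟨hn3, hn4⟩ := hP n hn3
      have hn5 : 3 * (n / 3) + e = n := by omega
      have : n / 3 ∈ insert (M / 3) ((Ioc (M / 3) (M / 3 + (X / 3 + 1))).filter
          (fun m => R m)) := by
        rw [mem_insert, mem_filter, mem_Ioc]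
        rcases Nat.lt_or_ge (M / 3) (n / 3) with h | h
        · right
          exact ⟨⟨h, by omega⟩, hR _ (by rw [hn5]; exact hn3)⟩
        · left
          have : M / 3 ≤ n / 3 := Nat.div_le_div_right (le_of_lt hn1)
          omega
      exact this
    · intro n hn n' hn' hnn
      rw [mem_coe, mem_filter, mem_Ioc] at hn hn'
      have := (hP n hn.2).2
      have := (hP n' hn'.2).2
      simp only at hnn
      omega
  exact h1.trans (card_insert_le _ _)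

theorem cnt_three (S P0 P1 P2 : ℕ → Prop) (h : ∀ n, S n → P0 n ∨ P1 n ∨ P2 n) (M X : ℕ) :
    cnt S M X ≤ cnt P0 M X + cnt P1 M X + cnt P2 M X := by
  classical
  unfold cnt
  refine le_trans (card_le_card ?_) ((card_union_le ((Ioc M (M + X)).filter (fun n => P0 n) ∪
    (Ioc M (M + X)).filter (fun n => P1 n)) ((Ioc M (M + X)).filter (fun n => P2 n))).trans
    (Nat.add_le_add_right (card_union_le _ _) _))
  intro n hn
  simp only [mem_union, mem_filter] at hn ⊢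
  have := h n hn.2
  tauto

theorem ubd_classes (S : ℕ → Prop) (c : ℕ → ℝ) (hc : c 0 + c 1 + c 2 ≤ 2)
    (h : ∀ e, e < 3 → Ubd (fun m => S (3 * m + e)) (c e)) : Ubd S (2 / 3) := by
  intro ε hε
  obtain ⟨X0, h0⟩ := h 0 (by norm_num) (ε / 2) (by linarith)
  obtain ⟨X1, h1⟩ := h 1 (by norm_num) (ε / 2) (by linarith)
  obtain ⟨X2, h2⟩ := h 2 (by norm_num) (ε / 2) (by linarith)
  obtain ⟨X3, hX3⟩ := exists_nat_gt ((5 + 3 * (ε / 2)) / (ε / 2))
  refine ⟨3 * (X0 + X1 + X2) + X3, fun X M hX => ?_⟩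
  have hX3' : 5 + 3 * (ε / 2) ≤ (ε / 2) * X := by
    rw [div_lt_iff₀ (by linarith)] at hX3
    have : (X3 : ℝ) ≤ X := by
      have : X3 ≤ X := by omega
      exact_mod_cast this
    nlinarith
  have g0 := h0 (X / 3 + 1) (M / 3) (by omega)
  have g1 := h1 (X / 3 + 1) (M / 3) (by omega)
  have g2 := h2 (X / 3 + 1) (M / 3) (by omega)
  have k0 := cnt_class S (fun n => S n ∧ n % 3 = 0) (fun m => S (3 * m + 0)) 0 (by norm_num)
    (fun n h => h) (fun m h => h) M X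
  have k1 := cnt_class S (fun n => S n ∧ n % 3 = 1) (fun m => S (3 * m + 1)) 1 (by norm_num)
    (fun n h => h) (fun m h => h) M X
  have k2 := cnt_class S (fun n => S n ∧ n % 3 = 2) (fun m => S (3 * m + 2)) 2 (by norm_num)
    (fun n h => h) (fun m h => h) M X
  have k3 := cnt_three S (fun n => S n ∧ n % 3 = 0) (fun n => S n ∧ n % 3 = 1)
    (fun n => S n ∧ n % 3 = 2) (fun n hn => by
      have : n % 3 = 0 ∨ n % 3 = 1 ∨ n % 3 = 2 := by omega
      tauto) M X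
  have k4 : (cnt S M X : ℝ) ≤ ((cnt (fun m => S (3 * m + 0)) (M / 3) (X / 3 + 1) +
      cnt (fun m => S (3 * m + 1)) (M / 3) (X / 3 + 1) +
      cnt (fun m => S (3 * m + 2)) (M / 3) (X / 3 + 1) + 3 : ℕ) : ℝ) := by
    have : cnt S M X ≤ cnt (fun m => S (3 * m + 0)) (M / 3) (X / 3 + 1) +
      cnt (fun m => S (3 * m + 1)) (M / 3) (X / 3 + 1) +
      cnt (fun m => S (3 * m + 2)) (M / 3) (X / 3 + 1) + 3 := by omega
    exact_mod_cast this
  push_cast at k4 g0 g1 g2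
  have k5 : ((X / 3 : ℕ) : ℝ) ≤ (X : ℝ) / 3 := Nat.cast_div_le
  have k6 : (0 : ℝ) ≤ ((X / 3 : ℕ) : ℝ) := Nat.cast_nonneg _
  have k7 : (cnt S M X : ℝ) ≤ (c 0 + c 1 + c 2 + 3 * (ε / 2)) * (((X / 3 : ℕ) : ℝ) + 1) + 3 := by
    linarith
  have k8 : (c 0 + c 1 + c 2 + 3 * (ε / 2)) * (((X / 3 : ℕ) : ℝ) + 1) ≤
      (2 + 3 * (ε / 2)) * ((X : ℝ) / 3 + 1) := by
    apply (mul_le_mul_of_nonneg_right (show c 0 + c 1 + c 2 + 3 * (ε / 2) ≤ 2 + 3 * (ε / 2) by linarith)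
      (by linarith)).trans
    apply mul_le_mul_of_nonneg_left (by linarith) (by linarith)
  nlinarith

/-- A third of the multiples of every even number. -/
theorem third (G : ℕ → Prop) (hG : P4 G) (Q : ℕ) (hQ : 0 < Q) (h2 : 2 ∣ Q) :
    Ubd (fun n => ¬ G (Q * n)) (2 / 3) := by
  have he : ∀ e m : ℕ, Q * (3 * m + e) = 3 * Q * m + e * Q := fun e m => by ring
  rcases ubd_S G hG Q hQ h2 with h | h
  · refine ubd_classes _ (fun e => if e = 0 then 0 else 1) (by norm_num) ?_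
    intro e he3
    rcases Nat.eq_zero_or_pos e with h0 | h0
    · subst h0
      simp only [if_true]
      simp only [he]
      simpa using h
    · rw [if_neg (by omega)]
      exact ubd_one _
  · refine ubd_classes _ (fun _ => 2 / 3) (by norm_num) ?_
    intro e _
    simp only [he]
    exact h e

/-- lower bounds -/
theorem low_of_ubd (G : ℕ → Prop) (c : ℝ) (h : Ubd (fun n => ¬ G n) c) (ε : ℝ) (hε : 0 < ε) :
    ∃ X0 : ℕ, ∀ X M : ℕ, X0 ≤ X → (1 - c - ε) * (X : ℝ) ≤ (cnt G M X : ℝ) := by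
  obtain ⟨X0, h0⟩ := h ε hε
  refine ⟨X0, fun X M hX => ?_⟩
  have h1 := h0 X M hX
  have h2 : (cnt G M X : ℝ) + (cnt (fun n => ¬ G n) M X : ℝ) = X := by exact_mod_cast cnt_not G M X
  linarith

/-- Dichotomy. -/
theorem dich (G : ℕ → Prop) (hG : P4 G) (Q : ℕ) (hQ : 0 < Q) (h2 : 2 ∣ Q) :
    (∀ ε : ℝ, 0 < ε → ∃ X0 : ℕ, ∀ X M : ℕ, X0 ≤ X →
      (1 - ε) * (X : ℝ) ≤ (cnt (fun m => G (3 * Q * m)) M X : ℝ)) ∨
    ∀ e : ℕ, ∀ ε : ℝ, 0 < ε → ∃ X0 : ℕ, ∀ X M : ℕ, X0 ≤ X →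
      (1 / 3 - ε) * (X : ℝ) ≤ (cnt (fun m => G (3 * Q * m + e * Q)) M X : ℝ) := by
  rcases ubd_S G hG Q hQ h2 with h | h
  · left
    intro ε hε
    have h1 := low_of_ubd (fun m => G (3 * Q * m)) 0 h ε hε
    simpa using h1
  · right
    intro e ε hε
    have h1 := low_of_ubd (fun m => G (3 * Q * m + e * Q)) (2 / 3) (h e) ε hε
    obtain ⟨X0, h2⟩ := h1
    refine ⟨X0, fun X M hX => le_trans (le_of_eq ?_) (h2 X M hX)⟩
    norm_num

end Pool.Agent.H11.GS
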