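import Pool.Agent.H11.GS.Df
import Pool.Agent.H21.CP.Gq
import Pool.Agent.H21.CP.Med

/-!
MP_8923e7_nt, project GS.  The quadruple theorem for the gaps between consecutive primes.
-/

namespace Pool.Agent.H11.GS

open Finset

/-- There are infinitely many pairs of consecutive primes with difference `d`. -/
def Gap (d : ℕ) : Prop :=
  {N : ℕ | N.Prime ∧ (N + d).Prime ∧ ∀ x : ℕ, N < x → x < N + d → ¬ x.Prime}.Infinite

theorem gap_of_gapQ {Q : ℕ → Prop} {k : ℕ} {a : Fin k → ℤ} {i j : Fin k}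
    (h : Pool.Agent.H21.CP.GapQ Q a i j) : a i < a j ∧ Gap (a j - a i).toNat := by
  obtain ⟨hlt, hinf⟩ := h
  refine ⟨hlt, ?_⟩
  -- the map `N ↦ (N + a i).toNat`
  have himg : ((fun N : ℕ => ((N : ℤ) + a i).toNat) '' {N : ℕ | (((N : ℤ) + a i).toNat.Prime ∧
      ((N : ℤ) + a j).toNat.Prime ∧ ∀ z : ℤ, a i < z → z < a j → ¬ ((N : ℤ) + z).toNat.Prime) ∧
      ∀ l, Q ((N : ℤ) + a l).toNat}).Infinite := by
    apply hinf.image
    rintro N ⟨⟨hN, -⟩, -⟩ N' ⟨⟨hN', -⟩, -⟩ hNN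
    simp only at hNN
    have h1 := hN.pos
    have h2 := hN'.pos
    omega
  refine himg.mono ?_
  rintro m ⟨N, ⟨⟨h1, h2, h3⟩, -⟩, rfl⟩
  have hp := h1.pos
  simp only at hp ⊢
  refine ⟨h1, ?_, ?_⟩
  · have e : ((N : ℤ) + a i).toNat + (a j - a i).toNat = ((N : ℤ) + a j).toNat := by omega
    rw [e]
    exact h2
  · intro x hx1 hx2 hx
    apply h3 ((x : ℤ) - N) (by omega) (by omega)
    have e : ((N : ℤ) + ((x : ℤ) - N)).toNat = x := by omega
    rw [e]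
    exact hx

open Classical in
theorem p4_gap : P4 Gap := by
  obtain ⟨δ, C, hδ, hδ1, hC, H⟩ := Pool.Agent.H21.CP.cons_chen (13 / 50) Pool.Agent.H21.CP.Q2
    Pool.Agent.H21.CP.Q2_prime 4 (by norm_num) (Pool.Agent.H21.CP.med 4 (by norm_num))
  refine ⟨δ, C, hδ, hδ1, hC, fun n A hn hA => ?_⟩
  refine le_trans ?_ (le_trans (H n A hn hA) (le_of_eq (by norm_num)))
  have : (Fintype.piFinset A).filter
      (fun a => AdT a ∧ ∀ i j, ¬ (a i < a j ∧ Gap (a j - a i).toNat)) ⊆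
      (Fintype.piFinset A).filter (fun a => Pool.Agent.H21.QT.AdT a ∧
        ∀ i j, ¬ Pool.Agent.H21.CP.GapQ Pool.Agent.H21.CP.Q2 a i j) := by
    intro a ha
    rw [mem_filter] at ha ⊢
    exact ⟨ha.1, ha.2.1, fun i j hij => ha.2.2 i j (gap_of_gapQ hij)⟩
  exact_mod_cast card_le_card this

end Pool.Agent.H11.GS
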