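import Pool.Agent.H11.GS.Pf
import Pool.Agent.H11.GS.Fin

/-!
MP_8923e7_nt, project GS.  A third of the multiples of every even number are gaps between consecutive primes.
-/

namespace Pool.Agent.H11.GS

open Finset

open Classical in
theorem gap_third (Q : ℕ) (hQ : 0 < Q) (h2 : 2 ∣ Q) (ε : ℝ) (hε : 0 < ε) :
    ∃ X0 : ℕ, ∀ X M : ℕ, X0 ≤ X →
      (1 / 3 - ε) * (X : ℝ) ≤ (((Ioc M (M + X)).filter (fun n => Gap (Q * n))).card : ℝ) := by
  obtain ⟨X0, h⟩ := low_of_ubd (fun n => Gap (Q * n)) (2 / 3) (third Gap p4_gap Q hQ h2) ε hε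
  refine ⟨X0, fun X M hX => le_trans (le_of_eq ?_) (h X M hX)⟩
  norm_num

open Classical in
/-- at least a sixth of all natural numbers are gaps -/
theorem gap_sixth (ε : ℝ) (hε : 0 < ε) :
    ∃ X0 : ℕ, ∀ X M : ℕ, X0 ≤ X →
      (1 / 6 - ε) * (X : ℝ) ≤ (((Ioc M (M + X)).filter (fun n => Gap n)).card : ℝ) := by
  obtain ⟨X0, h⟩ := gap_third 2 (by norm_num) (dvd_refl 2) ε hε
  obtain ⟨X1, hX1⟩ := exists_nat_gt (1 / (ε / 2))
  refine ⟨2 * X0 + X1 + 4, fun X M hX => ?_⟩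
  have h1 := h ((X - 1) / 2) ((M + 1) / 2) (by omega)
  have h2 : ((Ioc ((M + 1) / 2) ((M + 1) / 2 + (X - 1) / 2)).filter (fun n => Gap (2 * n))).card ≤
      ((Ioc M (M + X)).filter (fun n => Gap n)).card := by
    apply card_le_card_of_injOn (fun n => 2 * n)
    · intro n hn
      rw [mem_coe, mem_filter, mem_Ioc] at hn
      have : 2 * n ∈ (Ioc M (M + X)).filter (fun n => Gap n) := by
        rw [mem_filter, mem_Ioc]
        exact ⟨by omega, hn.2⟩
      exact this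
    · intro n _ n' _ hnn
      simp only at hnn
      omega
  have h3 : (((Ioc ((M + 1) / 2) ((M + 1) / 2 + (X - 1) / 2)).filter
      (fun n => Gap (2 * n))).card : ℝ) ≤ (((Ioc M (M + X)).filter (fun n => Gap n)).card : ℝ) := by
    exact_mod_cast h2
  have h4 : (X : ℝ) / 2 - 1 ≤ (((X - 1) / 2 : ℕ) : ℝ) := by
    have : X ≤ 2 * ((X - 1) / 2) + 2 := by omega
    have : (X : ℝ) ≤ 2 * (((X - 1) / 2 : ℕ) : ℝ) + 2 := by exact_mod_cast this
    linarith
  have h5 : (((X - 1) / 2 : ℕ) : ℝ) ≤ (X : ℝ) / 2 := by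
    have : 2 * ((X - 1) / 2) ≤ X := by omega
    have : 2 * (((X - 1) / 2 : ℕ) : ℝ) ≤ (X : ℝ) := by exact_mod_cast this
    linarith
  have h6 : 1 ≤ (ε / 2) * X := by
    rw [div_lt_iff₀ (by linarith)] at hX1
    have : (X1 : ℝ) ≤ X := by
      have : X1 ≤ X := by omega
      exact_mod_cast this
    nlinarith
  have h7 : (1 / 3 - ε) * (((X - 1) / 2 : ℕ) : ℝ) ≥ (1 / 3) * ((X : ℝ) / 2 - 1) - ε * ((X : ℝ) / 2) := by
    nlinarith
  linarith

end Pool.Agent.H11.GS
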