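import Pool.Agent.H11.GS.Df

/-!
MP_8923e7_nt, project GS.  Choice of the times.

Proof.  Induction on `T`; `T = 0` is trivial (extend `M` arbitrarily).  Let `M 0, …, M (T-1)` be chosen
(`T ≥ 1`; for `T = 0` the new condition is void and any `M 0` will do).  Let `K = ∑_{i<T} M i + 2 l + 1`.  Choose a
natural `L ≥ 1` with `K ≤ (ε/2) L` and by `Rich` a window `(W, W + L]` with at least `(2/3 + ε) L` elements of `S`.
For `m ∈ (W + K, W + K + L]`, `i < T`, `s, s' ∈ (0, l]` the number `m + s' - (M i + s)` is `m - h` with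
`0 ≤ h = M i + s - s' …` (use integers, or write `m + s' - (M i + s)` with `m + s' > M i + s`); the numbers
`m + s' - (M i + s)`, `m ∈ (W + K, W + K + L]`, form the interval `(W + g, W + g + L]` with
`g = K + s' - M i - s ∈ [0, K + l]`, hence at least `(2/3 + ε) L - g` of them are in `S`; to have `g ≤ (ε/2) L` choose
`L` with `K + l ≤ (ε/2) L` instead.  Sum over `i`, `s`, `s'`: the mean over `m` of
`∑_{i<T} #{(s,s') : S (m + s' - (M i + s))}` is at least `T (2/3 + ε/2) l²`, so some `m` has at least this value;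
put `M T = m`.  `M T > W + K > M i + l` for `i < T`.
-/

namespace Pool.Agent.H11.GS

open Finset

theorem ta_shift (S : ℕ → Prop) (W g L : ℕ) : cnt S W L ≤ g + cnt S (W + g) L := by
  classical
  unfold cnt
  have h1 : ((Ioc W (W + L)).filter (fun n => S n)) ⊆
      Ioc W (W + g) ∪ ((Ioc (W + g) (W + g + L)).filter (fun n => S n)) := by
    intro n hn
    rw [mem_filter, mem_Ioc] at hn
    rw [mem_union, mem_filter, mem_Ioc, mem_Ioc]
    by_cases h : n ≤ W + g
    · exact Or.inl ⟨hn.1.1, h⟩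
    · exact Or.inr ⟨⟨by omega, by omega⟩, hn.2⟩
  refine (card_le_card h1).trans ((card_union_le _ _).trans ?_)
  rw [Nat.card_Ioc]
  omega

open Classical in
theorem ta_eq (S : ℕ → Prop) (W L : ℕ) :
    (cnt S W L : ℝ) = ∑ t ∈ Ioc 0 L, if S (W + t) then (1 : ℝ) else 0 := by
  have h1 : cnt S W L = ((Ioc 0 L).filter (fun t => S (W + t))).card := by
    unfold cnt
    symm
    refine card_bij (fun t _ => W + t) ?_ ?_ ?_
    · intro t ht
      rw [mem_filter, mem_Ioc] at ht ⊢
      exact ⟨⟨by omega, by omega⟩, ht.2⟩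
    · intro a _ b _ hab
      omega
    · intro n hn
      rw [mem_filter, mem_Ioc] at hn
      refine ⟨n - W, ?_, by omega⟩
      rw [mem_filter, mem_Ioc]
      have h2 : W + (n - W) = n := by omega
      rw [h2]
      exact ⟨⟨by omega, by omega⟩, hn.2⟩
  rw [h1, card_filter]
  push_cast
  rfl

open Classical in
theorem times (S : ℕ → Prop) (ε : ℝ) (hε : 0 < ε) (h : Rich S (2 / 3 + ε)) (l : ℕ) (hl : 1 ≤ l)
    (T : ℕ) : ∃ M : ℕ → ℕ, (∀ i j, i < j → j < T → M i + l < M j) ∧
      ∀ j, j < T → (j : ℝ) * (2 / 3 + ε / 2) * (l : ℝ) ^ 2 ≤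
        ∑ i ∈ range j, ((((Ioc 0 l) ×ˢ (Ioc 0 l)).filter
          (fun s : ℕ × ℕ => S ((M j + s.2) - (M i + s.1)))).card : ℝ) := by
  induction T with
  | zero => exact ⟨fun _ => 0, fun i j _ hj => absurd hj (Nat.not_lt_zero j),
      fun j hj => absurd hj (Nat.not_lt_zero j)⟩
  | succ T ih =>
    obtain ⟨M, hM1, hM2⟩ := ih
    obtain ⟨K, hK⟩ : ∃ K : ℕ, K = ∑ i ∈ range T, M i + 2 * l + 1 := ⟨_, rfl⟩
    have hKi : ∀ i < T, M i + 2 * l + 1 ≤ K := by
      intro i hi
      have h1 : M i ≤ ∑ i ∈ range T, M i :=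
        single_le_sum (f := M) (fun _ _ => Nat.zero_le _) (mem_range.2 hi)
      omega
    obtain ⟨L0, hL0⟩ : ∃ L0 : ℕ, ((K : ℝ) + l) / (ε / 2) ≤ L0 := exists_nat_ge _
    obtain ⟨L, hL⟩ : ∃ L : ℕ, L = L0 + 1 := ⟨_, rfl⟩
    have hL1 : (K : ℝ) + l ≤ ε / 2 * L := by
      rw [div_le_iff₀ (by positivity)] at hL0
      have h1 : (L : ℝ) = L0 + 1 := by rw [hL]; push_cast; rfl
      rw [h1]
      nlinarith
    obtain ⟨W, hW⟩ := h L (by omega)
    -- the function to average
    obtain ⟨F, hF⟩ : ∃ F : ℕ → ℝ, F = fun t => ∑ i ∈ range T, ∑ s ∈ (Ioc 0 l) ×ˢ (Ioc 0 l),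
      if S ((W + K + t + s.2) - (M i + s.1)) then (1 : ℝ) else 0 := ⟨_, rfl⟩
    have hterm : ∀ i < T, ∀ s ∈ (Ioc 0 l) ×ˢ (Ioc 0 l), (2 / 3 + ε / 2) * (L : ℝ) ≤
        ∑ t ∈ Ioc 0 L, if S ((W + K + t + s.2) - (M i + s.1)) then (1 : ℝ) else 0 := by
      intro i hi s hs
      rw [mem_product, mem_Ioc, mem_Ioc] at hs
      have h1 := hKi i hi
      obtain ⟨g, hg⟩ : ∃ g : ℕ, g = K + s.2 - (M i + s.1) := ⟨_, rfl⟩
      have h2 : ∀ t, (W + K + t + s.2) - (M i + s.1) = W + g + t := by
        intro t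
        omega
      simp only [h2]
      rw [← ta_eq]
      have h3 : (cnt S W L : ℝ) ≤ g + cnt S (W + g) L := by exact_mod_cast ta_shift S W g L
      have h4 : (g : ℝ) ≤ K + l := by
        have : g ≤ K + l := by omega
        exact_mod_cast this
      linarith
    have hsum : ∑ t ∈ Ioc 0 L, (T : ℝ) * (2 / 3 + ε / 2) * (l : ℝ) ^ 2 ≤ ∑ t ∈ Ioc 0 L, F t := by
      rw [hF]
      simp only
      rw [sum_comm]
      have h1 : ∀ i ∈ range T, (l : ℝ) ^ 2 * ((2 / 3 + ε / 2) * (L : ℝ)) ≤
          ∑ t ∈ Ioc 0 L, ∑ s ∈ (Ioc 0 l) ×ˢ (Ioc 0 l),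
            if S ((W + K + t + s.2) - (M i + s.1)) then (1 : ℝ) else 0 := by
        intro i hi
        rw [sum_comm]
        have h2 := sum_le_sum (hterm i (mem_range.1 hi))
        rw [sum_const, card_product, Nat.card_Ioc, nsmul_eq_mul] at h2
        push_cast at h2
        refine le_trans (le_of_eq ?_) h2
        simp only [Nat.sub_zero]
        ring
      have h3 := sum_le_sum h1
      rw [sum_const, card_range, nsmul_eq_mul] at h3
      rw [sum_const, Nat.card_Ioc, nsmul_eq_mul]
      refine le_trans (le_of_eq ?_) h3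
      simp only [Nat.sub_zero]
      ring
    obtain ⟨t, ht, hFt⟩ := exists_le_of_sum_le ⟨1, mem_Ioc.2 ⟨by omega, by omega⟩⟩ hsum
    rw [mem_Ioc] at ht
    refine ⟨fun j => if j = T then W + K + t else M j, ?_, ?_⟩
    · intro i j hij hj
      have hi : i ≠ T := by omega
      simp only [hi, if_false]
      by_cases hjT : j = T
      · simp only [hjT, if_true]
        have h1 := hKi i (by omega)
        omega
      · simp only [hjT, if_false]
        exact hM1 i j hij (by omega)
    · intro j hj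
      by_cases hjT : j = T
      · subst hjT
        refine le_trans hFt (le_of_eq ?_)
        rw [hF]
        refine sum_congr rfl fun i hi => ?_
        rw [mem_range] at hi
        have hi' : i ≠ j := by omega
        simp only [hi', if_false, if_true]
        rw [card_filter]
        push_cast
        rfl
      · have h1 := hM2 j (by omega)
        refine le_trans h1 (le_of_eq ?_)
        refine sum_congr rfl fun i hi => ?_
        rw [mem_range] at hi
        have hi' : i ≠ T := by omega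
        simp only [hi', hjT, if_false]

end Pool.Agent.H11.GS
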