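import Pool.Agent.H11.GS.Df

/-!
MP_8923e7_nt, project GS.  Windows.

Proof of `ubd_or_rich`.  If `Ubd S c` fails, there is `ε > 0` such that for every `X0` there are `X ≥ X0` and `M`
with `cnt S M X > (c + ε) X`.  Take `ε / 2`: let `l ≥ 1`, `X0` with `ε X0 / 2 > l` and `X, M` as above.  Cut
`(M, M + X]` into `t = X / l` (natural division) intervals of length `l` and a rest of less than `l` elements.  If
each of them had less than `(c + ε/2) l` elements of `S`, then `(c + ε) X < (c + ε/2) l t + l ≤ (c + ε/2) X + l`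
(here `c + ε / 2 ≥ 0`), that is `ε X / 2 < l`, a contradiction.
-/

namespace Pool.Agent.H11.GS

open Finset

theorem cnt_add (S : ℕ → Prop) (M X Y : ℕ) : cnt S M (X + Y) = cnt S M X + cnt S (M + X) Y := by
  classical
  unfold cnt
  rw [← card_union_of_disjoint]
  · congr 1
    ext n
    simp only [mem_union, mem_filter, mem_Ioc]
    constructor
    · rintro ⟨⟨h1, h2⟩, h3⟩
      rcases Nat.lt_or_ge (M + X) n with h | h
      · exact Or.inr ⟨⟨h, by omega⟩, h3⟩
      · exact Or.inl ⟨⟨h1, h⟩, h3⟩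
    · rintro (⟨⟨h1, h2⟩, h3⟩ | ⟨⟨h1, h2⟩, h3⟩)
      · exact ⟨⟨h1, by omega⟩, h3⟩
      · exact ⟨⟨by omega, by omega⟩, h3⟩
  · rw [disjoint_left]
    intro n hn hn'
    simp only [mem_filter, mem_Ioc] at hn hn'
    omega

theorem cnt_le_len (S : ℕ → Prop) (M X : ℕ) : cnt S M X ≤ X := by
  classical
  unfold cnt
  refine (card_filter_le _ _).trans ?_
  simp

theorem cnt_blocks (S : ℕ → Prop) (l : ℕ) (d : ℝ) (h : ∀ M, (cnt S M l : ℝ) ≤ d * l) (t M : ℕ) :
    (cnt S M (t * l) : ℝ) ≤ d * ((t : ℝ) * l) := by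
  induction t generalizing M with
  | zero =>
    have : cnt S M 0 = 0 := by
      have := cnt_le_len S M 0
      omega
    simp [this]
  | succ t ih =>
    rw [Nat.succ_mul, cnt_add]
    push_cast
    have h1 := ih M
    have h2 := h (M + t * l)
    linarith

theorem ubd_or_rich (S : ℕ → Prop) (c : ℝ) (hc : 0 ≤ c) :
    Ubd S c ∨ ∃ ε : ℝ, 0 < ε ∧ Rich S (c + ε) := by
  by_cases hU : Ubd S c
  · exact Or.inl hU
  right
  unfold Ubd at hU
  push Not at hU
  obtain ⟨ε, hε, hU⟩ := hU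
  refine ⟨ε / 2, by linarith, ?_⟩
  intro l hl
  by_contra hcon
  push Not at hcon
  obtain ⟨X0, hX0⟩ := exists_nat_gt ((l : ℝ) / (ε / 2))
  rw [div_lt_iff₀ (by linarith)] at hX0
  obtain ⟨X, M, hX, h1⟩ := hU X0
  have hXR : (X0 : ℝ) ≤ X := by exact_mod_cast hX
  have h2 := cnt_blocks S l (c + ε / 2) (fun M => (hcon M).le) (X / l) M
  have h3 : X = X / l * l + X % l := by
    rw [mul_comm]
    exact (Nat.div_add_mod X l).symm
  have h4 : cnt S M X ≤ cnt S M (X / l * l) + l := by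
    have h5 : cnt S M X = cnt S M (X / l * l + X % l) := by rw [← h3]
    rw [h5, cnt_add]
    have := cnt_le_len S (M + X / l * l) (X % l)
    have := Nat.mod_lt X hl
    omega
  have h4' : (cnt S M X : ℝ) ≤ (cnt S M (X / l * l) : ℝ) + l := by exact_mod_cast h4
  have h6 : ((X / l : ℕ) : ℝ) * (l : ℝ) ≤ X := by
    have : X / l * l ≤ X := Nat.div_mul_le_self X l
    exact_mod_cast this
  have h7 : (c + ε / 2) * (((X / l : ℕ) : ℝ) * (l : ℝ)) ≤ (c + ε / 2) * X :=
    mul_le_mul_of_nonneg_left h6 (by linarith)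
  nlinarith

end Pool.Agent.H11.GS
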